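import Pool.Agent.K6.H96.NfOne
import Pool.Agent.Y939.XN.Few

/-! Nef classes with one arbitrary coefficient, and forms. -/

set_option autoImplicit false

namespace Pool.Agent.K6.H96

open Pool.Agent.TH176.Nag Pool.Agent.TH146.MN
open Pool.Agent.H932R3 Pool.Agent.H350R3 Pool.Agent.H350R3.GR
open Pool.Agent.Results.MP_309968_ag.BoundaryRays (MultGE)
open Pool.Agent.Results.MP_309968_ag.FewCoefficients (noForm_ext exists_supp)

/-- few distinct further coefficients -/
theorem nf_one_few {n r : ℕ} (hr : 0 < r) (gr : Fin n → Fin r) (hsurj : Function.Surjective gr)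
    (y : Fin r → ℝ) {W c M : ℝ} (hW : 0 < W) (hy : ∀ l, 0 < y l) (hyW : ∀ l, y l ≤ W)
    (hM : 0 < M) (hsq : ∑ i, y (gr i) ^ 2 = c ^ 2 - M ^ 2)
    (hmass : (16 * (r : ℝ) + 8) * W ^ 2 ≤ c ^ 2 - M ^ 2) (hb : M + 32 * W ≤ c) :
    NB.Nf ℂ (Fin.cons M (fun i => y (gr i)) : Fin (n + 1) → ℝ) c := by
  have hU : UU' (fun i => y (gr i)) (4 * W) :=
    U_few hr gr hsurj y hW hy hyW (by rw [hsq]; exact hmass)
  have hS : c ^ 2 - M ^ 2 = (c - M) * (c + M) := by ring
  have h1 : 32 * W ≤ c - M := by linarith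
  have h2 : c - M ≤ c + M := by linarith
  have h3 : (c - M) * (c - M) ≤ (c - M) * (c + M) := mul_le_mul_of_nonneg_left h2 (by linarith)
  refine nf_one _ (fun i => hy _) hM (by linarith) hsq ?_
  rcases le_total c (2 * M) with h4 | h4
  · left
    refine ⟨h4, UU'.up (by positivity) (by linarith) ?_ hU⟩
    rw [hsq, hS]
    nlinarith
  · right
    rcases le_total c (3 * M) with h5 | h5
    · left
      refine ⟨h5, UU'.up (by positivity) (by linarith) ?_ hU⟩
      rw [hsq, hS]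
      nlinarith
    · right
      refine ⟨h5, UU'.up (by positivity) (by linarith) ?_ hU⟩
      rw [hsq]
      nlinarith

/-- equal further coefficients, height equal to the coefficient -/
theorem UU'_self {ι : Type} [Fintype ι] [Nonempty ι] {t : ℝ} (ht : 0 < t) :
    UU' (fun _ : ι => t) t := by
  classical
  intro w s hs hw μ ν hμν
  have h1 : ∑ _i : ι, t ^ 2 = (Fintype.card ι : ℝ) * t ^ 2 := by
    rw [Finset.sum_const, Finset.card_univ, nsmul_eq_mul]
  rw [h1] at hμν ⊢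
  have hn : (0 : ℝ) < Fintype.card ι := by exact_mod_cast Fintype.card_pos
  have hμν' : μ + ν = Fintype.card ι := by rw [hμν]; field_simp
  apply TS.toRT (by rw [hμν']; exact hn)
  rw [hμν']
  refine Pool.Agent.TH181.Nag.PS.final (ι := ι) le_rfl hn.le (zero_add _) w _ (by positivity) ?_
  rw [Real.sqrt_mul hn.le, Real.sqrt_sq ht.le]
  have e : √(Fintype.card ι : ℝ) * (s * (√(Fintype.card ι : ℝ) * t)) =
      (√(Fintype.card ι : ℝ) * √(Fintype.card ι : ℝ)) * (s * t) := by ring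
  rw [e, Real.mul_self_sqrt hn.le]
  have h2 : ∑ _i : ι, s * t < ∑ i, (w i : ℝ) :=
    Finset.sum_lt_sum_of_nonempty Finset.univ_nonempty fun i _ => hw i
  rw [Finset.sum_const, Finset.card_univ, nsmul_eq_mul] at h2
  exact h2

/-- equal further coefficients -/
theorem nf_one_eq {n : ℕ} (hn : 0 < n) {t c M : ℝ} (ht : 0 < t) (hM : 0 < M)
    (hsq : (n : ℝ) * t ^ 2 = c ^ 2 - M ^ 2)
    (h : (c ≤ 2 * M ∧ (M + 4 * t ≤ c ∨ M + 2 * t = c)) ∨ (256 ≤ n ∧ M + 4 * t ≤ c)) :
    NB.Nf ℂ (Fin.cons M (fun _ => t) : Fin (n + 1) → ℝ) c := by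
  have hcard : (Fintype.card (Fin n) : ℝ) = n := by rw [Fintype.card_fin]
  have hMc : M < c := by
    rcases h with ⟨-, h | h⟩ | ⟨-, h⟩ <;> linarith
  have hsq' : ∑ _i : Fin n, t ^ 2 = c ^ 2 - M ^ 2 := by
    rw [Finset.sum_const, Finset.card_univ, nsmul_eq_mul, Fintype.card_fin]; exact hsq
  have hS : c ^ 2 - M ^ 2 = (c - M) * (c + M) := by ring
  have h2 : c - M ≤ c + M := by linarith
  have h3 : (c - M) * (c - M) ≤ (c - M) * (c + M) := mul_le_mul_of_nonneg_left h2 (by linarith)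
  have : Nonempty (Fin n) := ⟨⟨0, hn⟩⟩
  refine nf_one _ (fun i => ht) hM hMc hsq' ?_
  have hbig : c ≤ 2 * M → M + 4 * t ≤ c → UU' (fun _ : Fin n => t) ((c - M) / 2) := by
    intro h4 h5
    refine U_block ht (by linarith) ?_
    rw [hcard, hsq, hS]
    nlinarith
  rcases h with ⟨h4, h5 | h5⟩ | ⟨h4, h5⟩
  · exact Or.inl ⟨h4, hbig h4 h5⟩
  · left
    refine ⟨h4, ?_⟩
    have e : (c - M) / 2 = t := by linarith
    rw [e]
    exact UU'_self ht
  · have h6 : 16 * t ≤ c := by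
      have h7 : (256 : ℝ) ≤ n := by exact_mod_cast h4
      have h8 : (16 * t) ^ 2 ≤ c ^ 2 := by nlinarith [sq_nonneg M, sq_nonneg t]
      exact le_of_sq_le_sq h8 (by linarith)
    rcases le_total c (2 * M) with h7 | h7
    · exact Or.inl ⟨h7, hbig h7 h5⟩
    · right
      rcases le_total c (3 * M) with h8 | h8
      · left
        refine ⟨h8, U_block ht (by linarith) ?_⟩
        rw [hcard, hsq, hS]
        nlinarith
      · right
        refine ⟨h8, U_block ht (by linarith) ?_⟩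
        rw [hcard, hsq]
        nlinarith

/-- nef classes are nonnegative on all forms -/
theorem form_of_nf {n : ℕ} {f : ℕ → MvPolynomial (Fin n × Fin 2) ℂ}
    (hf' : ∀ p : Fin n → Fin 2 → ℂ,
      (∀ k, MvPolynomial.eval (fun q : Fin n × Fin 2 => p q.1 q.2) (f k) ≠ 0) →
      ∀ (d : ℕ) (m : Fin n → ℕ), (∃ q : Fin n → Fin 2 → ℂ, NoForm (ptJ q m) d) →
        NoForm (ptJ p m) d)
    {p : Fin n → Fin 2 → ℂ}
    (hp : ∀ k, MvPolynomial.eval (fun q : Fin n × Fin 2 => p q.1 q.2) (f k) ≠ 0)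
    {N : ℕ} {g : Fin N → Fin n} (hg : Function.Injective g) {X : Fin N → ℝ} {c : ℝ}
    (hnf : NB.Nf ℂ X c) {F : MvPolynomial (Fin 3) ℂ} {e : ℕ} {m : Fin n → ℕ}
    (hF : F.IsHomogeneous e) (hF0 : F ≠ 0) (hm : ∀ i, MultGE (p i) F (m i)) :
    ∑ j, X j * (m (g j) : ℝ) ≤ c * e := by
  by_contra hcon
  push Not at hcon
  obtain ⟨z, hz⟩ := hnf (fun j => m (g j)) e hcon
  refine hF0 (hf' p hp e m ⟨_, noForm_ext hg hz⟩ F hF ?_)
  unfold ptJ vIdeal
  rw [Ideal.mem_iInf]
  intro i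
  exact mem_of_support (p := p i) (hm i)

/-- the first coefficient and the further ones -/
theorem sum_split {n : ℕ} (i0 : Fin n) (f : Fin n → ℝ) :
    ∑ i, f i = f i0 + ∑ i ∈ Finset.univ.erase i0, f i :=
  (Finset.add_sum_erase _ _ (Finset.mem_univ i0)).symm

/-- the inequalities for all forms -/
theorem form_one (n : ℕ) : ∃ f : ℕ → MvPolynomial (Fin n × Fin 2) ℂ, (∀ k, f k ≠ 0) ∧
    ∀ p : Fin n → Fin 2 → ℂ,
      (∀ k, MvPolynomial.eval (fun q : Fin n × Fin 2 => p q.1 q.2) (f k) ≠ 0) →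
      ∀ (i0 : Fin n) (x : Fin n → ℝ) (c : ℝ), (∀ i, 0 ≤ x i) → ∑ i, x i ^ 2 = c ^ 2 →
        ((∃ W : ℝ, 0 < W ∧ (∀ i, i ≠ i0 → x i ≤ W) ∧ x i0 + 32 * W ≤ c ∧
          (16 * ((((Finset.univ.erase i0).image x).erase 0).card : ℝ) + 8) * W ^ 2 ≤
            c ^ 2 - x i0 ^ 2) ∨
        (∃ t : ℝ, 0 < t ∧ (∀ i, i ≠ i0 → x i = 0 ∨ x i = t) ∧
          ((c ≤ 2 * x i0 ∧ (x i0 + 4 * t ≤ c ∨ x i0 + 2 * t = c)) ∨
            (256 ≤ ((Finset.univ.erase i0).filter fun i => x i = t).card ∧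
              x i0 + 4 * t ≤ c)))) →
        ∀ (F : MvPolynomial (Fin 3) ℂ) (e : ℕ) (m : Fin n → ℕ), F.IsHomogeneous e → F ≠ 0 →
          (∀ i, MultGE (p i) F (m i)) → ∑ i, x i * (m i : ℝ) ≤ c * e := by
  classical
  obtain ⟨f, hf, hf'⟩ := exists_conds_all (K := ℂ) n
  refine ⟨f, hf, fun p hp i0 x c hx0 hsq hcase F e m hF hF0 hm => ?_⟩
  obtain ⟨x', hx'⟩ : ∃ x' : Fin n → ℝ, x' = Function.update x i0 0 := ⟨_, rfl⟩
  have hx'0 : x' i0 = 0 := by rw [hx']; simp
  have hx'1 : ∀ i, i ≠ i0 → x' i = x i := fun i hi => by rw [hx']; simp [hi]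
  obtain ⟨N, g, hg, hg0, hgs, hsum⟩ := exists_supp x'
  have hgi : ∀ j, g j ≠ i0 := fun j h => hg0 j (by rw [h]; exact hx'0)
  have hgx : ∀ j, x' (g j) = x (g j) := fun j => hx'1 _ (hgi j)
  have hgx0 : ∀ j, 0 < x (g j) := fun j => by
    have := hg0 j
    rw [hgx] at this
    exact lt_of_le_of_ne (hx0 _) (Ne.symm this)
  have hsumE : ∀ h : Fin n → ℝ, (∀ i, x i = 0 → h i = 0) →
      ∑ j, h (g j) = ∑ i ∈ Finset.univ.erase i0, h i := by
    intro h hh
    have h1 := hsum (fun i => if i = i0 then 0 else h i) (fun i hi => by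
      by_cases h2 : i = i0
      · simp [h2]
      · rw [hx'1 i h2] at hi
        simp only [if_neg h2]
        exact hh i hi)
    have h2 : ∑ j, h (g j) = ∑ j, (fun i => if i = i0 then 0 else h i) (g j) :=
      Finset.sum_congr rfl fun j _ => by simp [hgi j]
    rw [h2, h1, sum_split i0]
    simp only [if_true, zero_add]
    exact Finset.sum_congr rfl fun i hi => by simp [(Finset.mem_erase.1 hi).1]
  -- the case of an empty rest is excluded
  have hsqE : ∑ j, x (g j) ^ 2 = c ^ 2 - x i0 ^ 2 := by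
    rw [hsumE (fun i => x i ^ 2) (fun i hi => by simp only [hi]; norm_num), ← hsq,
      sum_split i0 (fun i => x i ^ 2)]
    ring
  have hpos : 0 < c ^ 2 - x i0 ^ 2 := by
    have h0 := hx0 i0
    rcases hcase with ⟨W, hW, -, h1, -⟩ | ⟨t, ht, -, ⟨-, h1 | h1⟩ | ⟨-, h1⟩⟩
    · nlinarith
    · nlinarith
    · nlinarith
    · nlinarith
  have hN : 0 < N := by
    rcases Nat.eq_zero_or_pos N with hN | hN
    · subst hN
      rw [Finset.univ_eq_empty, Finset.sum_empty] at hsqE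
      linarith
    · exact hN
  have htot : x i0 * (m i0 : ℝ) + ∑ j, x (g j) * (m (g j) : ℝ) = ∑ i, x i * (m i : ℝ) := by
    rw [hsumE (fun i => x i * (m i : ℝ)) (fun i hi => by simp only [hi, zero_mul]),
      sum_split i0 (fun i => x i * (m i : ℝ))]
  -- it is enough to have a nef class
  have hend : 0 < x i0 → NB.Nf ℂ (Fin.cons (x i0) (fun j => x (g j)) : Fin (N + 1) → ℝ) c →
      ∑ i, x i * (m i : ℝ) ≤ c * e := by
    intro _ hnf
    have hinj : Function.Injective (Fin.cons i0 g : Fin (N + 1) → Fin n) := by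
      rw [Fin.cons_injective_iff]
      exact ⟨fun ⟨j, hj⟩ => hgi j hj, hg⟩
    have h1 := form_of_nf hf' hp hinj hnf hF hF0 hm
    rw [Fin.sum_univ_succ] at h1
    simp only [Fin.cons_zero, Fin.cons_succ] at h1
    rw [← htot]
    exact h1
  have hend0 : x i0 = 0 → NB.Nf ℂ (fun j => x (g j)) c → ∑ i, x i * (m i : ℝ) ≤ c * e := by
    intro h0 hnf
    have h1 := form_of_nf hf' hp hg hnf hF hF0 hm
    rw [← htot, h0, zero_mul, zero_add]
    exact h1
  rcases hcase with ⟨W, hW, hxW, hb, hmass⟩ | ⟨t, ht, hxt, hcase⟩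
  · -- the nonzero values
    obtain ⟨V, hV⟩ : ∃ V : Finset ℝ, V = ((Finset.univ.erase i0).image x).erase 0 := ⟨_, rfl⟩
    rw [← hV] at hmass
    have hmV : ∀ t, t ∈ V ↔ t ≠ 0 ∧ ∃ i, i ≠ i0 ∧ x i = t := by
      intro t
      rw [hV, Finset.mem_erase, Finset.mem_image]
      exact ⟨fun ⟨h1, i, h3, h2⟩ => ⟨h1, i, (Finset.mem_erase.1 h3).1, h2⟩,
        fun ⟨h1, i, h3, h2⟩ => ⟨h1, i, Finset.mem_erase.2 ⟨h3, Finset.mem_univ _⟩, h2⟩⟩
    have hgV : ∀ j, x (g j) ∈ V := fun j => (hmV _).2 ⟨(hgx0 j).ne', g j, hgi j, rfl⟩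
    let gr : Fin N → Fin V.card := fun j => V.equivFin ⟨x (g j), hgV j⟩
    let y : Fin V.card → ℝ := fun l => (V.equivFin.symm l : ℝ)
    have hy : ∀ j, y (gr j) = x (g j) := by
      intro j
      simp only [y, gr, Equiv.symm_apply_apply]
    have hyV : ∀ l, y l ∈ V := fun l => (V.equivFin.symm l).2
    have hyinj : Function.Injective y := fun l l' h => V.equivFin.symm.injective (Subtype.ext h)
    have hyex : ∀ l, ∃ i, i ≠ i0 ∧ x i ≠ 0 ∧ x i = y l := fun l => by
      obtain ⟨h3, i, hi0, hi⟩ := (hmV _).1 (hyV l)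
      exact ⟨i, hi0, by rw [hi]; exact h3, hi⟩
    have hsurj : Function.Surjective gr := by
      intro l
      obtain ⟨i, hii, hi0, hi⟩ := hyex l
      obtain ⟨j, hj⟩ := hgs i (by rw [hx'1 i hii]; exact hi0)
      refine ⟨j, hyinj ?_⟩
      rw [hy, hj, hi]
    have hy0 : ∀ l, 0 < y l := fun l => by
      obtain ⟨i, -, hi0, hi⟩ := hyex l
      rw [← hi]
      exact lt_of_le_of_ne (hx0 i) (Ne.symm hi0)
    have hyM : ∀ l, y l ≤ W := fun l => by
      obtain ⟨i, hii, hi0, hi⟩ := hyex l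
      rw [← hi]
      exact hxW i hii
    have hr : 0 < V.card := Fin.pos (gr ⟨0, hN⟩)
    have hfun : (fun j => y (gr j)) = fun j => x (g j) := funext hy
    have hsq2 : ∑ j, y (gr j) ^ 2 = c ^ 2 - x i0 ^ 2 := by
      rw [← hsqE]
      exact Finset.sum_congr rfl fun j _ => by rw [hy j]
    rcases (hx0 i0).lt_or_eq with h0 | h0
    · refine hend h0 ?_
      have h1 := nf_one_few hr gr hsurj y hW hy0 hyM h0 hsq2 hmass hb
      rw [hfun] at h1
      exact h1
    · refine hend0 h0.symm ?_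
      rw [← h0] at hsq2 hmass hb
      have h1 := nf_few (c := c) hr gr hsurj y hW hy0 hyM (by rw [hsq2]; ring)
        (by
          have e : c ^ 2 - (0 : ℝ) ^ 2 = c ^ 2 := by ring
          rw [e] at hmass
          exact hmass) (by linarith)
      rw [hfun] at h1
      exact h1
  · have hgt : ∀ j, x (g j) = t := fun j => by
      rcases hxt (g j) (hgi j) with h | h
      · exact absurd h (hgx0 j).ne'
      · exact h
    have hNt : (N : ℝ) * t ^ 2 = c ^ 2 - x i0 ^ 2 := by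
      rw [← hsqE, Finset.sum_congr rfl fun j _ => by rw [hgt j], Finset.sum_const,
        Finset.card_univ, nsmul_eq_mul, Fintype.card_fin]
    have hcardN : ((Finset.univ.erase i0).filter fun i => x i = t).card ≤ N := by
      have h1 : ((Finset.univ.erase i0).filter fun i => x i = t) ⊆ Finset.univ.image g := by
        intro i hi
        obtain ⟨h2, h3⟩ := Finset.mem_filter.1 hi
        obtain ⟨j, hj⟩ := hgs i (by
          rw [hx'1 i (Finset.mem_erase.1 h2).1, h3]; exact ht.ne')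
        exact Finset.mem_image.2 ⟨j, Finset.mem_univ _, hj⟩
      refine (Finset.card_le_card h1).trans (Finset.card_image_le.trans ?_)
      simp
    have hfun : (fun j => x (g j)) = fun _ => t := funext hgt
    rcases (hx0 i0).lt_or_eq with h0 | h0
    · refine hend h0 ?_
      have h1 := nf_one_eq hN ht h0 hNt (by
        rcases hcase with h | ⟨h, h2⟩
        · exact Or.inl h
        · exact Or.inr ⟨h.trans hcardN, h2⟩)
      rw [hfun]
      exact h1
    · refine hend0 h0.symm ?_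
      rw [← h0] at hNt hcase
      have h256 : 256 ≤ N := by
        rcases hcase with ⟨h, h1⟩ | ⟨h, -⟩
        · exfalso
          rcases h1 with h1 | h1 <;> linarith
        · exact h.trans hcardN
      have h256' : (256 : ℝ) ≤ N := by exact_mod_cast h256
      have hc2 : (N : ℝ) * t ^ 2 = c ^ 2 := by rw [hNt]; ring
      have hcpos : 0 ≤ c := by
        rcases hcase with ⟨h, h1⟩ | ⟨-, h1⟩
        · exfalso
          rcases h1 with h1 | h1 <;> linarith
        · linarith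
      have ht2 : 0 < t ^ 2 := by positivity
      have h12 : 12 * t ≤ c := by
        have h1 : (12 * t) ^ 2 ≤ c ^ 2 := by nlinarith
        exact le_of_sq_le_sq h1 hcpos
      have h1 := nf_few (n := N) (r := 1) one_pos (fun _ => 0) (fun l => ⟨⟨0, hN⟩, Subsingleton.elim _ _⟩)
        (fun _ => t) (M := t) (c := c) ht (fun _ => ht) (fun _ => le_rfl) (by
          rw [Finset.sum_const, Finset.card_univ, nsmul_eq_mul, Fintype.card_fin]; exact hc2)
        (by push_cast; nlinarith) h12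
      rw [hfun]
      exact h1

end Pool.Agent.K6.H96
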