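import Pool.Agent.K6.H96.Trap
import Pool.Agent.TH146.MN.Few2

/-! Trapezoids with unimodular corners: the systems of plane curves of degree `C` with a point of
multiplicity `C - B`. -/

set_option autoImplicit false

namespace Pool.Agent.K6.H96

open Pool.Agent.TH176.Nag Pool.Agent.TH146.MN

variable {ι : Type} {w : ι → ℕ}

/-- the exponents of the forms of degree `C` with a point of multiplicity `C - B` -/
def Tz (C B : ℝ) : Set (ℤ × ℤ) :=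
  {m | 0 ≤ m.1 ∧ 0 ≤ m.2 ∧ (m.2 : ℝ) ≤ B ∧ (m.1 : ℝ) + m.2 ≤ C}

theorem Emp_Tz3 {C B : ℝ}
    (h : Emp w {m : ℤ × ℤ | 0 ≤ m.1 ∧ 0 ≤ m.2 ∧ (m.2 : ℝ) ≤ B ∧ (m.1 : ℝ) + 3 * m.2 ≤ B + C}) :
    Emp w (Tz C B) := by
  have h1 : Emp w {m : ℤ × ℤ | 0 ≤ m.2 ∧ (m.2 : ℝ) ≤ B ∧ -B + m.2 ≤ (m.1 : ℝ) ∧
      (m.1 : ℝ) ≤ C - 2 * m.2} := by
    refine h.comap 1 (-1) 0 1 ⌊B⌋ 0 (by norm_num) ?_
    rintro ⟨t, k⟩ ⟨k1, k2, k3, k4⟩
    simp only at k1 k2 k3 k4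
    have hB := Int.floor_le B
    have hB' : -⌊B⌋ ≤ t - k := by
      rw [← Int.ceil_neg]
      apply Int.ceil_le.2
      push_cast
      linarith
    refine ⟨by simp only; omega, by simp only; omega, ?_, ?_⟩
    · simp only
      push_cast
      linarith
    · simp only
      push_cast
      linarith
  refine Emp_flat 1 (-1) 1 0 (by norm_num) ?_ h1
  rintro ⟨p1, p2⟩ T k ⟨k1, k2, k3, k4⟩ ⟨k5, k6, k7, k8⟩ hk
  simp only at k1 k2 k3 k4 k5 k6 k7 k8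
  push_cast at k7 k8
  have c1 : (0 : ℝ) ≤ p1 := by exact_mod_cast k1
  have c2 : (0 : ℝ) ≤ p2 := by exact_mod_cast k2
  have c3 : (k : ℝ) ≤ T := by exact_mod_cast hk
  refine ⟨by simp, ?_, ?_, ?_⟩
  · simp only
    rw [Int.cast_natCast]
    linarith
  · simp only
    push_cast
    linarith
  · simp only
    push_cast
    linarith

theorem Emp_Tz8 {C B : ℝ}
    (h : Emp w {m : ℤ × ℤ | 0 ≤ m.1 ∧ 0 ≤ m.2 ∧ (m.2 : ℝ) ≤ B / 2 ∧
      (m.1 : ℝ) + 8 * m.2 ≤ B + 2 * C}) : Emp w (Tz C B) := by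
  have h1 : Emp w {m : ℤ × ℤ | 0 ≤ m.2 ∧ (m.2 : ℝ) ≤ B / 2 ∧ -B + 2 * m.2 ≤ (m.1 : ℝ) ∧
      (m.1 : ℝ) ≤ 2 * C - 6 * m.2} := by
    refine h.comap 1 (-2) 0 1 ⌊B⌋ 0 (by norm_num) ?_
    rintro ⟨t, k⟩ ⟨k1, k2, k3, k4⟩
    simp only at k1 k2 k3 k4
    have hB := Int.floor_le B
    have hB' : -⌊B⌋ ≤ t - 2 * k := by
      rw [← Int.ceil_neg]
      apply Int.ceil_le.2
      push_cast
      linarith
    refine ⟨by simp only; omega, by simp only; omega, ?_, ?_⟩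
    · simp only
      push_cast
      linarith
    · simp only
      push_cast
      linarith
  refine Emp_flat 2 (-1) 1 1 (by norm_num) ?_ h1
  rintro ⟨p1, p2⟩ T k ⟨k1, k2, k3, k4⟩ ⟨k5, k6, k7, k8⟩ hk
  simp only at k1 k2 k3 k4 k5 k6 k7 k8
  push_cast at k7 k8
  have c1 : (0 : ℝ) ≤ p1 := by exact_mod_cast k1
  have c2 : (0 : ℝ) ≤ p2 := by exact_mod_cast k2
  have c3 : (k : ℝ) ≤ T := by exact_mod_cast hk
  refine ⟨by simp, ?_, ?_, ?_⟩
  · simp only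
    rw [Int.cast_natCast]
    linarith
  · simp only
    push_cast
    linarith
  · simp only
    push_cast
    linarith

/-- the rectangle -/
theorem Emp_rect2 {A B : ℝ}
    (h : Emp w {m : ℤ × ℤ | 0 ≤ m.1 ∧ 0 ≤ m.2 ∧ (m.2 : ℝ) ≤ A ∧ (m.1 : ℝ) + 2 * m.2 ≤ A + B}) :
    Emp w {m : ℤ × ℤ | 0 ≤ m.1 ∧ 0 ≤ m.2 ∧ (m.1 : ℝ) ≤ B ∧ (m.2 : ℝ) ≤ A} := by
  have h1 : Emp w {m : ℤ × ℤ | 0 ≤ m.2 ∧ (m.2 : ℝ) ≤ A ∧ -A + m.2 ≤ (m.1 : ℝ) ∧
      (m.1 : ℝ) ≤ B - m.2} := by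
    refine h.comap 1 (-1) 0 1 ⌊A⌋ 0 (by norm_num) ?_
    rintro ⟨t, k⟩ ⟨k1, k2, k3, k4⟩
    simp only at k1 k2 k3 k4
    have hB := Int.floor_le A
    have hB' : -⌊A⌋ ≤ t - k := by
      rw [← Int.ceil_neg]
      apply Int.ceil_le.2
      push_cast
      linarith
    refine ⟨by simp only; omega, by simp only; omega, ?_, ?_⟩
    · simp only
      push_cast
      linarith
    · simp only
      push_cast
      linarith
  refine Emp_flat 1 (-1) 1 0 (by norm_num) ?_ h1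
  rintro ⟨p1, p2⟩ T k ⟨k1, k2, k3, k4⟩ ⟨k5, k6, k7, k8⟩ hk
  simp only at k1 k2 k3 k4 k5 k6 k7 k8
  push_cast at k7 k8
  have c1 : (0 : ℝ) ≤ p1 := by exact_mod_cast k1
  have c2 : (0 : ℝ) ≤ p2 := by exact_mod_cast k2
  have c3 : (k : ℝ) ≤ T := by exact_mod_cast hk
  refine ⟨by simp, ?_, ?_, ?_⟩
  · simp only
    rw [Int.cast_natCast]
    linarith
  · simp only
    push_cast
    linarith
  · simp only
    push_cast
    linarith

section few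
variable [Fintype ι]

/-- squeezing -/
theorem UU'.up [Finite ι] {x : ι → ℝ} {H H' : ℝ} (hH' : 0 < H') (h2 : 2 * H' ≤ H)
    (h3 : 3 * H ^ 2 ≤ 2 * ∑ i, x i ^ 2) (h : UU' x H') : UU' x H := by
  have hH : 0 < H := by linarith
  intro w s hs hw μ ν hμν
  obtain ⟨S, hS⟩ : ∃ S : ℝ, S = ∑ i, x i ^ 2 := ⟨_, rfl⟩
  rw [← hS] at h3 hμν ⊢
  have hS0 : 0 < S := by
    have : 0 < H ^ 2 := by positivity
    linarith
  have hδ : 0 < μ + ν := by rw [hμν]; positivity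
  apply TS.toRT hδ
  refine TS.squeeze (by positivity) (m := 2 * S / (H * H')) ?_ ?_ ?_
  · rw [hμν, le_div_iff₀ (by positivity)]; linarith
  · rw [hμν, ← mul_div_assoc, div_le_div_iff₀ (by positivity) (by positivity)]
    have : 0 ≤ 2 * S * H * (H - 2 * H') := mul_nonneg (by positivity) (by linarith)
    nlinarith
  · have e : (2 * S / (H * H')) ^ 2 / (4 * (μ + ν)) = S / H' ^ 2 := by
      rw [hμν]; field_simp; ring
    rw [e]
    have h4 := h w s hs hw 0 (S / H' ^ 2) (by rw [zero_add, ← hS])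
    rw [← hS] at h4
    exact h4

/-- the trapezoid for a large multiplicity -/
theorem Tz_of_UU' {x : ι → ℝ} {c M : ℝ} (hM : M < c) (hc2 : c ≤ 2 * M)
    (hsq : ∑ i, x i ^ 2 = c ^ 2 - M ^ 2) (h : UU' x ((c - M) / 2)) {s : ℝ} (hs : 0 < s)
    (hw : ∀ i, s * x i < w i) : Emp w (Tz (s * c) (s * (c - M))) := by
  have hb : 0 < c - M := by linarith
  have hM0 : 0 < M := by linarith
  have hS0 : 0 < c ^ 2 - M ^ 2 := by nlinarith
  apply Emp_Tz3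
  refine Emp_trap (E := s * √(c ^ 2 - M ^ 2)) (δ := 3) (e := s * (c - M) + s * c) (H := s * (c - M))
    (by norm_num) (by positivity) ?_ ?_ (by positivity) ?_
  · nlinarith
  · rw [mul_pow, Real.sq_sqrt hS0.le]; ring
  · have h1 := h w s hs hw 0 ((c ^ 2 - M ^ 2) / ((c - M) / 2) ^ 2) (by rw [hsq, zero_add])
    rw [hsq] at h1
    have e : (4 * (s * (c - M) + s * c) - 2 * 3 * (s * (c - M))) / (s * (c - M) / 2) =
        (c ^ 2 - M ^ 2) / ((c - M) / 2) ^ 2 := by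
      field_simp
      ring
    rw [e]
    exact h1

/-- the trapezoid for a multiplicity at least a third of the degree -/
theorem Tz_of_UU'8 {x : ι → ℝ} {c M : ℝ} (hM : M < c) (hc3 : c ≤ 3 * M)
    (hsq : ∑ i, x i ^ 2 = c ^ 2 - M ^ 2) (h : UU' x ((c - M) / 4)) {s : ℝ} (hs : 0 < s)
    (hw : ∀ i, s * x i < w i) : Emp w (Tz (s * c) (s * (c - M))) := by
  have hb : 0 < c - M := by linarith
  have hM0 : 0 < M := by linarith
  have hS0 : 0 < c ^ 2 - M ^ 2 := by nlinarith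
  apply Emp_Tz8
  refine Emp_trap (E := s * √(c ^ 2 - M ^ 2)) (δ := 8) (e := s * (c - M) + 2 * (s * c))
    (H := s * (c - M) / 2) (by norm_num) (by positivity) ?_ ?_ (by positivity) ?_
  · nlinarith
  · rw [mul_pow, Real.sq_sqrt hS0.le]; ring
  · have h1 := h w s hs hw 0 ((c ^ 2 - M ^ 2) / ((c - M) / 4) ^ 2) (by rw [hsq, zero_add])
    rw [hsq] at h1
    have e : (4 * (s * (c - M) + 2 * (s * c)) - 2 * 8 * (s * (c - M) / 2)) /
        (s * (c - M) / 2 / 2) = (c ^ 2 - M ^ 2) / ((c - M) / 4) ^ 2 := by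
      field_simp
      ring
    rw [e]
    exact h1

/-- the rectangle -/
theorem rect_of_UU' {x : ι → ℝ} {A B : ℝ} (hA : 0 < A) (hAB : A ≤ B)
    (hsq : ∑ i, x i ^ 2 = 2 * A * B) (h : UU' x (A / 2)) {s : ℝ} (hs : 0 < s)
    (hw : ∀ i, s * x i < w i) :
    Emp w {m : ℤ × ℤ | 0 ≤ m.1 ∧ 0 ≤ m.2 ∧ (m.1 : ℝ) ≤ s * B ∧ (m.2 : ℝ) ≤ s * A} := by
  have hB : 0 < B := by linarith
  have hS0 : 0 < 2 * A * B := by positivity
  apply Emp_rect2
  refine Emp_trap (E := s * √(2 * A * B)) (δ := 2) (e := s * A + s * B) (H := s * A)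
    (by norm_num) (by positivity) ?_ ?_ (by positivity) ?_
  · nlinarith
  · rw [mul_pow, Real.sq_sqrt hS0.le]; ring
  · have h1 := h w s hs hw 0 (2 * A * B / (A / 2) ^ 2) (by rw [hsq, zero_add])
    rw [hsq] at h1
    have e : (4 * (s * A + s * B) - 2 * 2 * (s * A)) / (s * A / 2) = 2 * A * B / (A / 2) ^ 2 := by
      field_simp
      ring
    rw [e]
    exact h1

end few

end Pool.Agent.K6.H96
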