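import Pool.Agent.K6.H96.F1

/-! Nef classes with one arbitrary multiplicity. -/

set_option autoImplicit false

namespace Pool.Agent.K6.H96

open Pool.Agent.TH176.Nag Pool.Agent.TH146.MN

variable {ι : Type} {w : ι → ℕ}

theorem plane_finite (d : ℕ) :
    ({m : ℤ × ℤ | 0 ≤ m.1 ∧ 0 ≤ m.2 ∧ m.1 + m.2 ≤ (d : ℤ)}).Finite := by
  refine ((Set.finite_Icc (0 : ℤ) d).prod (Set.finite_Icc (0 : ℤ) d)).subset ?_
  rintro ⟨x, y⟩ ⟨h1, h2, h3⟩
  simp only at h1 h2 h3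
  refine ⟨⟨by simp only; omega, by simp only; omega⟩, ⟨by simp only; omega, by simp only; omega⟩⟩

/-- a point of multiplicity `v` -/
theorem Emp_plane_Tz {d v : ℕ} {C B : ℝ} (hC : (d : ℝ) ≤ C) (hB : (d : ℝ) - v ≤ B)
    (h : Emp w (Tz C B)) : Emp (fun o : Option ι => o.elim v w)
      {m : ℤ × ℤ | 0 ≤ m.1 ∧ 0 ≤ m.2 ∧ m.1 + m.2 ≤ (d : ℤ)} := by
  have h1 : Emp w {m : ℤ × ℤ | 0 ≤ m.1 ∧ 0 ≤ m.2 ∧ m.1 + m.2 ≤ (d : ℤ) ∧ (v : ℤ) ≤ m.1 + m.2} := by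
    refine h.comap 1 0 (-1) (-1) 0 d (by norm_num) ?_
    rintro ⟨i, j⟩ ⟨k1, k2, k3, k4⟩
    simp only at k1 k2 k3 k4
    have c2 : (0 : ℝ) ≤ j := by exact_mod_cast k2
    have c4 : (v : ℝ) ≤ i + j := by exact_mod_cast k4
    refine ⟨by simp only; omega, by simp only; omega, ?_, ?_⟩
    · simp only
      push_cast
      linarith
    · simp only
      push_cast
      linarith
  refine Pool.Agent.TH102.DP.Emp_absorb v (plane_finite d) (fun m hm => hm.2.1) (fun _ => 0)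
    (fun m hm => hm.1) ?_ h1
  rintro ⟨i, j⟩ ⟨k1, k2, k3⟩ k4
  simp only at k1 k2 k3 k4
  exact ⟨k1, k2, k3, by simp only; omega⟩

/-- the plane from a triangle with the left slope `μ` -/
theorem plane_mu {E μ : ℝ} (hE : 0 < E) (h0 : 0 < μ) (h1 : μ ≤ 1)
    (h : Pool.Agent.TH366.RC.T w E μ (9 - μ)) : Pool.Agent.TH366.RC.T w E 0 1 := by
  obtain ⟨τ, hτ⟩ : ∃ τ : ℝ, τ = (μ + 1) / 3 := ⟨_, rfl⟩
  have hτ0 : 0 < τ := by rw [hτ]; linarith
  have hτ1 : τ < 1 := by rw [hτ]; linarith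
  have e9 : 3 * (1 + τ) + 3 * (2 - τ) = 9 := by ring
  have h3 : Pool.Agent.TH366.RC.T w E (3 * (1 + τ)) (3 * (2 - τ)) := by
    refine Pool.Agent.TH366.RC.T.shear (-4) ?_
    have e1 : 3 * (1 + τ) + ((-4 : ℤ) : ℝ) = μ := by rw [hτ]; push_cast; ring
    have e2 : 3 * (2 - τ) - ((-4 : ℤ) : ℝ) = 9 - μ := by rw [hτ]; push_cast; ring
    rw [e1, e2]
    exact h
  obtain ⟨d, hd⟩ : ∃ d : ℕ, d = ⌊E⌋₊ := ⟨_, rfl⟩
  have hdE : (d : ℝ) ≤ E := by rw [hd]; exact Nat.floor_le hE.le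
  have h4 := h3 (-((d : ℝ) * (1 + τ)))
  rw [e9] at h4
  have e3 : √(9 : ℝ) = 3 := by
    rw [show (9 : ℝ) = 3 ^ 2 by norm_num]
    exact Real.sqrt_sq (by norm_num)
  rw [e3] at h4
  have h5 := Pool.Agent.TH603.EL.Emp_key (w := w) (d := d) hτ0 hτ1 (h4.mono (by
    rintro m ⟨k1, k2, k3⟩
    refine ⟨k1, k2, k3.trans ?_⟩
    linarith))
  apply Pool.Agent.TH366.RC.T.of_std
  refine h5.mono ?_
  rintro ⟨a, b⟩ ⟨k1, k2, k3⟩
  simp only at k1 k2 k3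
  refine ⟨k1, k2, ?_⟩
  simp only
  rw [Real.sqrt_one, mul_one, one_mul] at k3
  have h6 : ((a + b : ℤ) : ℝ) ≤ E := by push_cast; exact k3
  have h7 : a + b ≤ ⌊E⌋ := Int.le_floor.2 h6
  have h8 : ((⌊E⌋₊ : ℕ) : ℤ) = ⌊E⌋ := Int.natCast_floor_eq_floor hE.le
  rw [hd, h8]
  exact h7

/-- a point of multiplicity at most a third of the degree -/
theorem Emp_plane_third [Fintype ι] {x : ι → ℝ} {c M s : ℝ} {d v : ℕ} (hM : 0 < M)
    (hc3 : 3 * M ≤ c) (hsq : ∑ i, x i ^ 2 = c ^ 2 - M ^ 2) (h : UU' x (c / 3)) (hs : 0 < s)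
    (hd : (d : ℝ) ≤ s * c) (hv : s * M ≤ v) (hw : ∀ i, s * x i < w i) :
    Emp (fun o : Option ι => o.elim v w)
      {m : ℤ × ℤ | 0 ≤ m.1 ∧ 0 ≤ m.2 ∧ m.1 + m.2 ≤ (d : ℤ)} := by
  have hc : 0 < c := by linarith
  have hS0 : 0 < c ^ 2 - M ^ 2 := by nlinarith
  obtain ⟨μ, hμ⟩ : ∃ μ : ℝ, μ = 3 * M / c := ⟨_, rfl⟩
  have hμ0 : 0 < μ := by rw [hμ]; positivity
  have hμ1 : μ ≤ 1 := by rw [hμ, div_le_one hc]; exact hc3
  have hμc : μ * c = 3 * M := by rw [hμ]; field_simp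
  have hE : 0 < s * c := by positivity
  have e9 : √(9 : ℝ) = 3 := by
    rw [show (9 : ℝ) = 3 ^ 2 by norm_num]
    exact Real.sqrt_sq (by norm_num)
  have eσ : μ + (9 - μ) - μ ^ 2 = (c ^ 2 - M ^ 2) / (c / 3) ^ 2 := by
    rw [hμ]; field_simp; ring
  have hT : Pool.Agent.TH366.RC.T w (s * √(c ^ 2 - M ^ 2)) 0 (μ + (9 - μ) - μ ^ 2) := by
    have h1 := h w s hs hw 0 (μ + (9 - μ) - μ ^ 2) (by rw [hsq, zero_add]; exact eσ)
    rw [hsq] at h1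
    exact h1
  have h2 : Pool.Agent.TH366.RC.T (fun o : Option ι => o.elim v w) (s * c) μ (9 - μ) := by
    refine Pool.Agent.TH366.RC.T.corner (E' := s * √(c ^ 2 - M ^ 2)) hμ0 hμ1 (by linarith) ?_ ?_ hT
    · rw [eσ]; positivity
    · have e1 : μ + (9 - μ) = 9 := by ring
      rw [eσ, e1, e9, Real.sqrt_div hS0.le, Real.sqrt_sq (by positivity)]
      have e2 : s * √(c ^ 2 - M ^ 2) * (√(c ^ 2 - M ^ 2) / (c / 3)) =
          3 * s * (c ^ 2 - M ^ 2) / c := by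
        have e3 : s * √(c ^ 2 - M ^ 2) * (√(c ^ 2 - M ^ 2) / (c / 3)) =
            s * (√(c ^ 2 - M ^ 2) * √(c ^ 2 - M ^ 2)) / (c / 3) := by ring
        rw [e3, Real.mul_self_sqrt hS0.le]
        field_simp
      rw [e2, le_div_iff₀ hc]
      have e4 : (s * c * 3 - μ * v) * c = 3 * s * c ^ 2 - (μ * c) * v := by ring
      rw [e4, hμc]
      nlinarith
  have h3 := plane_mu hE hμ0 hμ1 h2 0
  refine h3.mono ?_
  rintro ⟨i, j⟩ ⟨k1, k2, k3⟩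
  simp only at k1 k2 k3
  have c1 : (0 : ℝ) ≤ i := by exact_mod_cast k1
  have c3 : (i : ℝ) + j ≤ d := by exact_mod_cast k3
  refine ⟨k2, ?_, ?_⟩
  · simp only; linarith
  · simp only
    rw [zero_add (1 : ℝ), Real.sqrt_one]
    linarith

/-- the class `c H - M E_0 - ∑ x i E_i` is nef -/
theorem nf_one {n : ℕ} (x : Fin n → ℝ) (hx : ∀ i, 0 < x i) {c M : ℝ} (hM : 0 < M) (hMc : M < c)
    (hsq : ∑ i, x i ^ 2 = c ^ 2 - M ^ 2)
    (hU : (c ≤ 2 * M ∧ UU' x ((c - M) / 2)) ∨ (c ≤ 3 * M ∧ UU' x ((c - M) / 4)) ∨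
      (3 * M ≤ c ∧ UU' x (c / 3))) :
    Pool.Agent.H350R3.NB.Nf ℂ (Fin.cons M x : Fin (n + 1) → ℝ) c := by
  have hc : 0 < c := by linarith
  have hX0 : ∀ i, 0 < (Fin.cons M x : Fin (n + 1) → ℝ) i := by
    intro i
    refine Fin.cases ?_ (fun j => ?_) i
    · simpa using hM
    · simpa using hx j
  refine NF.nf_of_star _ hX0 hc ?_ ?_
  · rw [Fin.sum_univ_succ]
    simp only [Fin.cons_zero, Fin.cons_succ]
    rw [hsq]; ring
  · intro w d hw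
    have hs1 : ∀ i, ∃ t : ℝ, (d : ℝ) / c < t ∧ t * (Fin.cons M x : Fin (n + 1) → ℝ) i < w i := by
      intro i
      have h1 : (d : ℝ) / c < w i / (Fin.cons M x : Fin (n + 1) → ℝ) i := by
        rw [div_lt_div_iff₀ hc (hX0 i)]
        have := hw i
        linarith
      obtain ⟨t, h2, h3⟩ := exists_between h1
      exact ⟨t, h2, by rwa [lt_div_iff₀ (hX0 i)] at h3⟩
    choose t ht1 ht2 using hs1
    obtain ⟨i1, -, hi1⟩ := Finset.exists_min_image (Finset.univ : Finset (Fin (n + 1))) t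
      Finset.univ_nonempty
    have hd0 : (0 : ℝ) ≤ d := Nat.cast_nonneg d
    have hs : 0 < t i1 := lt_of_le_of_lt (by positivity) (ht1 i1)
    have hsd : (d : ℝ) < t i1 * c := by
      have := ht1 i1
      rwa [div_lt_iff₀ hc] at this
    have hsw : ∀ i, t i1 * (Fin.cons M x : Fin (n + 1) → ℝ) i < w i := fun i =>
      lt_of_le_of_lt (mul_le_mul_of_nonneg_right (hi1 i (Finset.mem_univ _)) (hX0 i).le) (ht2 i)
    have hs0 : t i1 * M < w 0 := by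
      have := hsw 0
      simpa using this
    have hsj : ∀ j : Fin n, t i1 * x j < w j.succ := fun j => by
      have := hsw j.succ
      simpa using this
    have key : Emp (fun o : Option (Fin n) => o.elim (w 0) fun j => w j.succ)
        {m : ℤ × ℤ | 0 ≤ m.1 ∧ 0 ≤ m.2 ∧ m.1 + m.2 ≤ (d : ℤ)} := by
      rcases hU with ⟨h1, h2⟩ | ⟨h1, h2⟩ | ⟨h1, h2⟩
      · refine Emp_plane_Tz hsd.le ?_ (Tz_of_UU' hMc h1 hsq h2 hs hsj)
        linarith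
      · refine Emp_plane_Tz hsd.le ?_ (Tz_of_UU'8 hMc h1 hsq h2 hs hsj)
        linarith
      · exact Emp_plane_third hM h1 hsq h2 hs hsd.le hs0.le hsj
    have h4 := Pool.Agent.TH366.RC.Emp_reindex (finSuccEquiv n) key
    have e : (fun j => (finSuccEquiv n j).elim (w 0) fun j => w j.succ) = w := by
      funext j
      refine Fin.cases ?_ (fun i => ?_) j
      · simp
      · simp
    rw [e] at h4
    exact h4

end Pool.Agent.K6.H96
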