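import Pool.Agent.K6.H96.One

/-! Negative curves with one arbitrary multiplicity. -/

set_option autoImplicit false

namespace Pool.Agent.K6.H96

open Pool.Agent.Y939.XN (card_spaced)

/-- few distinct multiplicities apart from one of them -/
theorem neg_bound_one {s : ℕ} {k μ : ℕ} {u : Fin s → ℕ} {i0 : Fin s} (hk : 1 ≤ k)
    (hμ : ∀ i, i ≠ i0 → u i ≤ μ) (hμ1 : 1 ≤ μ)
    (hsp : ∀ i j, u i ≠ u j → (k : ℤ) ≤ ((u i : ℤ) - u j) ^ 2)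
    (h1 : ∑ i ∈ Finset.univ.erase i0, u i ^ 2 <
      (16 * (((Finset.univ.erase i0).image u).erase 0).card + 8) * μ ^ 2) :
    √(k : ℝ) * (((∑ i ∈ Finset.univ.erase i0, u i ^ 2 : ℕ) : ℝ) - 24 * (μ : ℝ) ^ 2) ≤
      16 * (μ : ℝ) ^ 3 := by
  classical
  obtain ⟨S, hS⟩ : ∃ S, S = ∑ i ∈ Finset.univ.erase i0, u i ^ 2 := ⟨_, rfl⟩
  obtain ⟨A, hA⟩ : ∃ A, A = ((Finset.univ.erase i0).image u).erase 0 := ⟨_, rfl⟩
  rw [← hS, ← hA] at h1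
  rw [← hS]
  obtain ⟨y, hy⟩ : ∃ y : ℝ, y = √(k : ℝ) := ⟨_, rfl⟩
  have hy0 : 0 ≤ y := by rw [hy]; exact Real.sqrt_nonneg _
  rw [← hy]
  have hμR : (1 : ℝ) ≤ μ := by exact_mod_cast hμ1
  have h1R : (S : ℝ) < (16 * (A.card : ℝ) + 8) * (μ : ℝ) ^ 2 := by exact_mod_cast h1
  rcases Nat.eq_zero_or_pos A.card with h0 | hA1
  · rw [h0] at h1R
    have h2 : (S : ℝ) - 24 * (μ : ℝ) ^ 2 ≤ 0 := by
      push_cast at h1R
      nlinarith [sq_nonneg (μ : ℝ)]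
    have h3 : y * ((S : ℝ) - 24 * (μ : ℝ) ^ 2) ≤ 0 := mul_nonpos_of_nonneg_of_nonpos hy0 h2
    have h4 : 0 ≤ 16 * (μ : ℝ) ^ 3 := by positivity
    linarith
  obtain ⟨q, hq⟩ : ∃ q, q = Nat.sqrt (k - 1) + 1 := ⟨_, rfl⟩
  have hqk : k ≤ q ^ 2 := by
    have h2 := Nat.lt_succ_sqrt' (k - 1)
    rw [hq]
    have h3 : (k - 1).sqrt.succ = (k - 1).sqrt + 1 := rfl
    rw [h3] at h2
    omega
  have hcard : A.card ≤ (μ - 1) / q + 1 := by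
    refine card_spaced (by omega) (fun a ha => ?_) fun a ha b hb hab => ?_
    · rw [hA, Finset.mem_erase, Finset.mem_image] at ha
      obtain ⟨h2, i, hi, rfl⟩ := ha
      exact ⟨by omega, hμ i (Finset.mem_erase.1 hi).1⟩
    · rw [hA, Finset.mem_erase, Finset.mem_image] at ha hb
      obtain ⟨h2, i, -, rfl⟩ := ha
      obtain ⟨h3, j, -, rfl⟩ := hb
      have h4 := hsp j i hab.ne'
      obtain ⟨d, hd⟩ : ∃ d, u j = u i + d := ⟨u j - u i, by omega⟩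
      rw [hd] at h4
      push_cast at h4
      have h5 : (k : ℤ) ≤ (d : ℤ) ^ 2 := by
        have e1 : ((u i : ℤ) + d - u i) ^ 2 = (d : ℤ) ^ 2 := by ring
        rwa [e1] at h4
      have h6 : k ≤ d ^ 2 := by exact_mod_cast h5
      have h7 : Nat.sqrt (k - 1) < d := Nat.sqrt_lt'.2 (by omega)
      omega
  have hmul : (A.card - 1) * q ≤ μ - 1 :=
    le_trans (Nat.mul_le_mul_right q (by omega)) (Nat.div_mul_le_self (μ - 1) q)
  have hyq : y ≤ q := by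
    rw [hy]
    refine Real.sqrt_le_iff.2 ⟨Nat.cast_nonneg _, ?_⟩
    exact_mod_cast hqk
  obtain ⟨c, hc⟩ : ∃ c, A.card = c + 1 := ⟨A.card - 1, by omega⟩
  rw [hc, Nat.add_sub_cancel] at hmul
  have hyc : (c : ℝ) * y ≤ μ := by
    have h2 : (c : ℝ) * y ≤ c * q := mul_le_mul_of_nonneg_left hyq (Nat.cast_nonneg _)
    have h3 : ((c * q : ℕ) : ℝ) ≤ ((μ : ℕ) : ℝ) := by exact_mod_cast (by omega : c * q ≤ μ)
    push_cast at h3
    linarith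
  have h2 : (S : ℝ) ≤ (16 * ((c : ℝ) + 1) + 8) * (μ : ℝ) ^ 2 := by
    rw [hc] at h1R
    push_cast at h1R
    exact h1R.le
  have h3 : y * ((S : ℝ) - 24 * (μ : ℝ) ^ 2) ≤ y * (16 * c * (μ : ℝ) ^ 2) := by
    refine mul_le_mul_of_nonneg_left ?_ hy0
    linarith
  have h4 : c * y * (μ : ℝ) ^ 2 ≤ μ * (μ : ℝ) ^ 2 := mul_le_mul_of_nonneg_right hyc (sq_nonneg _)
  have e1 : y * (16 * c * (μ : ℝ) ^ 2) = 16 * (c * y * (μ : ℝ) ^ 2) := by ring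
  have e2 : 16 * (μ : ℝ) ^ 3 = 16 * (μ * (μ : ℝ) ^ 2) := by ring
  linarith

end Pool.Agent.K6.H96
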