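import Mathlib
import Pool.Agent.TH167.SH.Conv
import Pool.Agent.TH167.SH.Defs
import Pool.Agent.K6.H96.NegOne

set_option autoImplicit false

/-!
# Nef classes and negative curves with one arbitrary multiplicity

Let `p 1, …, p n` be very general points of the complex projective plane. We prove that the classes
`c H - M E 0 - ∑ x i E i`, `c ^ 2 = M ^ 2 + ∑ x i ^ 2`, are nef for an ARBITRARY `M < c`, if the
further coefficients `x i` take few distinct values and are small in comparison with `c - M`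
(`32 x i ≤ c - M`; for one value `t` it is enough that `4 t ≤ c - M`, and `2 t = c - M` is allowed).
The starting results of this kind treat only `M ≤ c / 12` (and quotients of integers).

For an irreducible curve of class `d H - M E 0 - ∑ w i E i` and of negative self-intersection this
gives `- C ^ 2 (∑ w i ^ 2 - 24 μ ^ 2) ^ 2 ≤ 256 μ ^ 6` (the sum without `M ^ 2`), if `w i ≤ μ` and
`M + 32 μ ≤ d`. A negative curve of class `d H - M E 0 - t (E 1 + … + E N)` with `d ≤ 2 M` or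
`N ≥ 256` has `d < M + 4 t` and `d ≠ M + 2 t`.

Proof: the polygon of the monomials of degree at most `d` and of order at least `M` is a trapezoid;
monomials are cut off by nodal cubics (or conics) through the point `0` until a rectangle, or a
triangle whose height is a constant part of `d - M`, is left.
-/

namespace Pool.Agent.K6.H96

open MvPolynomial Pool.Agent.TH167 Pool.Agent.TH167.SHDefs
open Pool.Agent.Results.MP_309968_ag.BoundaryRays (MultGE curvCone cone_le)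

/-- The coefficients other than `x i0` are at most `W ≤ (c - x i0) / 32` and take at most `r`
distinct nonzero values, where `(16 r + 8) W ^ 2 ≤ c ^ 2 - (x i0) ^ 2`. -/
def FewValues {n : ℕ} (i0 : Fin n) (x : Fin n → ℝ) (c : ℝ) : Prop :=
  ∃ W : ℝ, 0 < W ∧ (∀ i, i ≠ i0 → x i ≤ W) ∧ x i0 + 32 * W ≤ c ∧
    (16 * ((((Finset.univ.erase i0).image x).erase 0).card : ℝ) + 8) * W ^ 2 ≤ c ^ 2 - x i0 ^ 2

/-- The coefficients other than `x i0` are zero or equal to `t`. Either `c ≤ 2 x i0` and `c - x i0`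
is at least `4 t` or equal to `2 t`, or `c - x i0 ≥ 4 t` and there are at least 256 coefficients
`t`. -/
def OneValue {n : ℕ} (i0 : Fin n) (x : Fin n → ℝ) (c : ℝ) : Prop :=
  ∃ t : ℝ, 0 < t ∧ (∀ i, i ≠ i0 → x i = 0 ∨ x i = t) ∧
    ((c ≤ 2 * x i0 ∧ (x i0 + 4 * t ≤ c ∨ x i0 + 2 * t = c)) ∨
      (256 ≤ ((Finset.univ.erase i0).filter fun i => x i = t).card ∧ x i0 + 4 * t ≤ c))

/-- the quasi-homogeneous case, abstractly -/
theorem quasi {n : ℕ} {w : Fin n → ℕ} {d : ℕ} {i0 : Fin n}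
    (hform : ∀ (x : Fin n → ℝ) (c : ℝ), (∀ i, 0 ≤ x i) → ∑ i, x i ^ 2 = c ^ 2 →
      OneValue i0 x c → ∑ i, x i * (w i : ℝ) ≤ c * d)
    (hneg : (d : ℝ) ^ 2 < ∑ i, (w i : ℝ) ^ 2) {t : ℕ} (ht : 1 ≤ t)
    (hw : ∀ i, i ≠ i0 → w i = 0 ∨ w i = t)
    (hd : d ≤ 2 * w i0 ∨ 256 ≤ ((Finset.univ.erase i0).filter fun i => w i = t).card) :
    d < w i0 + 4 * t ∧ d ≠ w i0 + 2 * t := by
  classical
  obtain ⟨A, hA⟩ : ∃ A, A = (Finset.univ.erase i0).filter fun i => w i = t := ⟨_, rfl⟩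
  rw [← hA] at hd
  have htR : (1 : ℝ) ≤ t := by exact_mod_cast ht
  have htne : (t : ℝ) ≠ 0 := by linarith
  -- sums
  have hsum : ∀ (a b : ℝ) (f : Fin n → ℝ), f i0 = a → (∀ i ∈ A, f i = b) →
      (∀ i, i ≠ i0 → i ∉ A → f i = 0) → ∑ i, f i = a + A.card * b := by
    intro a b f h1 h2 h3
    rw [sum_split i0, h1]
    congr 1
    have h4 : ∑ i ∈ Finset.univ.erase i0, f i = ∑ i ∈ A, f i := by
      symm
      refine Finset.sum_subset (by rw [hA]; exact Finset.filter_subset _ _) fun i hi hiA => ?_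
      exact h3 i (Finset.mem_erase.1 hi).1 hiA
    rw [h4, Finset.sum_congr rfl h2, Finset.sum_const, nsmul_eq_mul]
  have hAmem : ∀ i, i ∈ A ↔ i ≠ i0 ∧ w i = t := by
    intro i
    rw [hA, Finset.mem_filter, Finset.mem_erase]
    simp
  have hA0 : i0 ∉ A := fun h => ((hAmem i0).1 h).1 rfl
  have hwA : ∀ i, i ≠ i0 → i ∉ A → w i = 0 := fun i hi hiA => by
    rcases hw i hi with h | h
    · exact h
    · exact absurd ((hAmem i).2 ⟨hi, h⟩) hiA
  obtain ⟨M, hM⟩ : ∃ M, M = w i0 := ⟨_, rfl⟩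
  rw [← hM] at hd ⊢
  have hMR : (0 : ℝ) ≤ M := Nat.cast_nonneg _
  have hS : ∑ i, (w i : ℝ) ^ 2 = (M : ℝ) ^ 2 + A.card * (t : ℝ) ^ 2 := by
    refine hsum _ _ _ (by rw [hM]) (fun i hi => by rw [((hAmem i).1 hi).2]) fun i h1 h2 => ?_
    rw [hwA i h1 h2]
    norm_num
  rw [hS] at hneg
  -- the test classes
  have htest : ∀ a b c : ℝ, 0 ≤ a → 0 < b → a ^ 2 + A.card * b ^ 2 = c ^ 2 →
      ((c ≤ 2 * a ∧ (a + 4 * b ≤ c ∨ a + 2 * b = c)) ∨ (256 ≤ A.card ∧ a + 4 * b ≤ c)) →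
      a * M + A.card * (b * t) ≤ c * d := by
    intro a b c ha hb hsq hcase
    obtain ⟨x, hx⟩ : ∃ x : Fin n → ℝ, ∀ i, x i = if i = i0 then a else if i ∈ A then b else 0 :=
      ⟨_, fun _ => rfl⟩
    have hx0 : x i0 = a := by rw [hx, if_pos rfl]
    have hxA : ∀ i ∈ A, x i = b := fun i hi => by
      rw [hx, if_neg (fun h => hA0 (by rw [← h]; exact hi)), if_pos hi]
    have hxn : ∀ i, i ≠ i0 → i ∉ A → x i = 0 := fun i h1 h2 => by
      rw [hx, if_neg h1, if_neg h2]
    have h1 := hform x c (fun i => by rw [hx]; split_ifs <;> linarith)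
      (by
        rw [hsum (a ^ 2) (b ^ 2) (fun i => x i ^ 2) (by simp only [hx0])
          (fun i hi => by simp only [hxA i hi]) (fun i h1 h2 => by simp only [hxn i h1 h2]; norm_num)]
        exact hsq)
      ⟨b, hb, fun i hi => by
          by_cases h : i ∈ A
          · exact Or.inr (hxA i h)
          · exact Or.inl (hxn i hi h), by
        rw [hx0]
        rcases hcase with h | ⟨h, h2⟩
        · exact Or.inl h
        · refine Or.inr ⟨h.trans (Finset.card_le_card fun i hi => ?_), h2⟩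
          rw [Finset.mem_filter, Finset.mem_erase]
          exact ⟨⟨((hAmem i).1 hi).1, Finset.mem_univ _⟩, hxA i hi⟩⟩
    rw [hsum (a * M) (b * t) (fun i => x i * (w i : ℝ)) (by simp only [hx0, hM])
      (fun i hi => by simp only [hxA i hi, ((hAmem i).1 hi).2])
      (fun i h1 h2 => by simp only [hxn i h1 h2, zero_mul])] at h1
    exact h1
  have hdR : (0 : ℝ) ≤ d := Nat.cast_nonneg _
  obtain ⟨N, hN⟩ : ∃ N : ℝ, N = A.card := ⟨_, rfl⟩
  have hN0 : 0 ≤ N := by rw [hN]; exact Nat.cast_nonneg _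
  rw [← hN] at hneg htest
  constructor
  · by_contra hcon
    push Not at hcon
    have hconR : (M : ℝ) + 4 * t ≤ d := by exact_mod_cast hcon
    obtain ⟨c, hc0, hc⟩ : ∃ c : ℝ, 0 ≤ c ∧ c ^ 2 = (M : ℝ) ^ 2 + N * (t : ℝ) ^ 2 :=
      ⟨√((M : ℝ) ^ 2 + N * (t : ℝ) ^ 2), Real.sqrt_nonneg _, Real.sq_sqrt (by positivity)⟩
    have hdc : (d : ℝ) < c := by
      rw [← hc] at hneg
      exact lt_of_pow_lt_pow_left₀ 2 hc0 hneg
    by_cases h1 : c ≤ 2 * M ∨ 256 ≤ A.card
    · have h2 := htest M t c hMR (by linarith) hc.symm (by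
        rcases h1 with h1 | h1
        · exact Or.inl ⟨h1, Or.inl (by linarith)⟩
        · exact Or.inr ⟨h1, by linarith⟩)
      have h3 : (M : ℝ) * M + N * (t * t) = c ^ 2 := by rw [hc]; ring
      rw [h3] at h2
      nlinarith
    · push Not at h1
      obtain ⟨h1, h2⟩ := h1
      have h3 : d ≤ 2 * M := by
        rcases hd with h | h
        · exact h
        · omega
      have h3R : (d : ℝ) ≤ 2 * M := by exact_mod_cast h3
      have h4 : 3 * (M : ℝ) ^ 2 < N * (t : ℝ) ^ 2 := by nlinarith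
      have h5 : 4 * (t : ℝ) ≤ M := by linarith
      have h6 : 48 < N := by
        have h7 : 48 * (t : ℝ) ^ 2 < N * (t : ℝ) ^ 2 := by nlinarith
        exact lt_of_mul_lt_mul_right h7 (sq_nonneg _)
      obtain ⟨c', hc'0, hc'⟩ : ∃ c' : ℝ, 0 ≤ c' ∧ c' ^ 2 = 4 * N / 3 :=
        ⟨√(4 * N / 3), Real.sqrt_nonneg _, Real.sq_sqrt (by positivity)⟩
      have h8 : 8 ≤ c' := by nlinarith
      have h9 := htest (c' / 2) 1 c' (by linarith) one_pos (by
        rw [one_pow, mul_one, div_pow, hc']; ring)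
        (Or.inl ⟨by linarith, Or.inl (by linarith)⟩)
      -- `c' M / 2 + N t ≤ c' d ≤ 2 c' M`
      have h10 : N * t ≤ c' * (3 / 2 * M) := by
        have h11 : c' * d ≤ c' * (2 * M) := mul_le_mul_of_nonneg_left h3R hc'0
        have e : c' / 2 * M + N * (1 * t) = c' * (M / 2) + N * t := by ring
        rw [e] at h9
        linarith
      have h12 : (N * t) ^ 2 ≤ (c' * (3 / 2 * M)) ^ 2 :=
        pow_le_pow_left₀ (by positivity) h10 2
      have e1 : (c' * (3 / 2 * M)) ^ 2 = N * (3 * (M : ℝ) ^ 2) := by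
        rw [mul_pow, hc']; ring
      rw [e1] at h12
      have h13 : N * (3 * (M : ℝ) ^ 2) < N * (N * (t : ℝ) ^ 2) :=
        mul_lt_mul_of_pos_left h4 (by linarith)
      nlinarith
  · intro hcon
    have hconR : (d : ℝ) = M + 2 * t := by exact_mod_cast hcon
    have h1 : 4 * ((M : ℝ) + t) < N * t := by
      rw [hconR] at hneg
      have h2 : (4 * ((M : ℝ) + t)) * t < (N * t) * t := by nlinarith
      exact lt_of_mul_lt_mul_right h2 (by linarith)
    have h12 : 12 ≤ N := by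
      rcases hd with h | h
      · have hR : (d : ℝ) ≤ 2 * M := by exact_mod_cast h
        have h3 : 12 * (t : ℝ) ≤ N * t := by linarith
        exact le_of_mul_le_mul_right h3 (by linarith)
      · have h3 : (256 : ℝ) ≤ N := by rw [hN]; exact_mod_cast h
        linarith
    have h2 := htest ((N + 4) / 4 - 2) 1 ((N + 4) / 4) (by linarith) one_pos (by ring)
      (Or.inl ⟨by linarith, Or.inr (by ring)⟩)
    rw [hconR] at h2
    nlinarith

/-- nef classes and negative curves with one arbitrary multiplicity -/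
theorem one_main (n : ℕ) :
    ∃ Z : ℕ → MvPolynomial (Fin n × Fin 2) ℂ, (∀ k, Z k ≠ 0) ∧
      ∀ p : Fin n → Fin 2 → ℂ,
        (∀ k, MvPolynomial.eval (fun ij : Fin n × Fin 2 => p ij.1 ij.2) (Z k) ≠ 0) →
        ∀ i0 : Fin n,
          -- nef classes
          (∀ (x : Fin n → ℝ) (c : ℝ), (∀ i, 0 ≤ x i) → ∑ i, x i ^ 2 = c ^ 2 →
            (FewValues i0 x c ∨ OneValue i0 x c) →
            ∀ z ∈ curvCone p, ∑ i, x i * z.2 i ≤ c * z.1) ∧
          -- negative curves
          ∀ (d : ℕ) (w : Fin n → ℕ) (C : MvPolynomial (Fin 3) ℂ), Curve p C d w →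
            inter d w d w < 0 →
            (∀ μ : ℕ, 1 ≤ μ → (∀ i, i ≠ i0 → w i ≤ μ) → w i0 + 32 * μ ≤ d →
              -inter d w d w *
                (∑ i ∈ Finset.univ.erase i0, (w i : ℤ) ^ 2 - 24 * (μ : ℤ) ^ 2) ^ 2 ≤
                  256 * (μ : ℤ) ^ 6) ∧
            ∀ t : ℕ, 1 ≤ t → (∀ i, i ≠ i0 → w i = 0 ∨ w i = t) →
              (d ≤ 2 * w i0 ∨
                256 ≤ ((Finset.univ.erase i0).filter fun i => w i = t).card) →
              d < w i0 + 4 * t ∧ d ≠ w i0 + 2 * t := by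
  classical
  obtain ⟨f1, hf1, h1⟩ := SH.exists_fam (Fin n × Fin 2)
  obtain ⟨f2, hf2, h2⟩ := form_one n
  refine ⟨fun k => f1 k * f2 k, fun k => mul_ne_zero (hf1 k) (hf2 k), fun p hp i0 => ?_⟩
  have hP := (h1 fun q => p q.1 q.2).1 fun k => by
    have := hp k
    rw [map_mul] at this
    exact left_ne_zero_of_mul this
  have hform := h2 p (fun k => by
    have := hp k
    rw [map_mul] at this
    exact right_ne_zero_of_mul this) i0
  refine ⟨fun x c hx0 hsq hcase z hz => ?_, fun d w C hC hneg => ?_⟩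
  · exact cone_le (g := id) hx0 (fun F e m hF _ hF0 hm => by
      have := hform x c hx0 hsq hcase F e m hF hF0 hm
      simp only [id]
      linarith) z hz
  obtain ⟨c1, c2, c3⟩ := SH.curve_iff.1 hC
  have hmult := (Pool.Agent.Y939.XN.mult_iff c2 w).2 fun i => (c3 i).1
  have hformC := fun x c hx0 hsq hcase => hform x c hx0 hsq hcase C d w c2 c1.ne_zero hmult
  have e1 : ∑ i, (w i : ℤ) * w i = ((∑ i, w i ^ 2 : ℕ) : ℤ) := by
    push_cast
    exact Finset.sum_congr rfl fun i _ => by ring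
  have e2 : inter d w d w = (d : ℤ) ^ 2 - ((∑ i, w i ^ 2 : ℕ) : ℤ) := by
    unfold inter
    rw [e1]
    ring
  rw [e2] at hneg ⊢
  have h4 : d ^ 2 < ∑ i, w i ^ 2 := by
    have h5 : ((d ^ 2 : ℕ) : ℤ) < ((∑ i, w i ^ 2 : ℕ) : ℤ) := by
      push_cast at hneg ⊢
      linarith
    exact_mod_cast h5
  obtain ⟨k, hk⟩ : ∃ k, ∑ i, w i ^ 2 = d ^ 2 + k := ⟨∑ i, w i ^ 2 - d ^ 2, by omega⟩
  have hk1 : 1 ≤ k := by omega
  have e3 : -((d : ℤ) ^ 2 - ((∑ i, w i ^ 2 : ℕ) : ℤ)) = (k : ℤ) := by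
    rw [hk]
    push_cast
    ring
  rw [e3]
  have h4R : (d : ℝ) ^ 2 < ∑ i, (w i : ℝ) ^ 2 := by exact_mod_cast h4
  have hsp : ∀ i j, w i ≠ w j → (k : ℤ) ≤ ((w i : ℤ) - w j) ^ 2 := fun i j hij => by
    have h3 := Pool.Agent.Y939.XN.spaced hP c1 c2 c3 hij
    rw [hk] at h3
    push_cast at h3
    linarith
  refine ⟨fun μ hμ1 hμ hb => ?_, fun t ht hw hd => ?_⟩
  · obtain ⟨S, hS⟩ : ∃ S : ℕ, S = ∑ i ∈ Finset.univ.erase i0, w i ^ 2 := ⟨_, rfl⟩
    have hS0 : ∑ i, w i ^ 2 = w i0 ^ 2 + S := by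
      rw [hS, Finset.add_sum_erase Finset.univ (fun i => w i ^ 2) (Finset.mem_univ i0)]
    have hSZ : ∑ i ∈ Finset.univ.erase i0, (w i : ℤ) ^ 2 = S := by rw [hS]; push_cast; rfl
    rw [hSZ]
    -- the mass is large
    have hSd : d ^ 2 < w i0 ^ 2 + S := by rw [← hS0]; exact h4
    have hmass : 24 * μ ^ 2 ≤ S := by
      obtain ⟨q, hq⟩ : ∃ q, d = w i0 + 32 * μ + q := ⟨d - (w i0 + 32 * μ), by omega⟩
      rw [hq] at hSd
      nlinarith
    have hkey : S < (16 * (((Finset.univ.erase i0).image w).erase 0).card + 8) * μ ^ 2 := by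
      by_contra hcon
      push Not at hcon
      obtain ⟨c, hc0, hc⟩ : ∃ c : ℝ, 0 ≤ c ∧ c ^ 2 = ∑ i, (w i : ℝ) ^ 2 :=
        ⟨√(∑ i, (w i : ℝ) ^ 2), Real.sqrt_nonneg _,
          Real.sq_sqrt (Finset.sum_nonneg fun i _ => sq_nonneg _)⟩
      have hdc : (d : ℝ) < c := by
        rw [← hc] at h4R
        exact lt_of_pow_lt_pow_left₀ 2 hc0 h4R
      have hcardeq : ((((Finset.univ.erase i0).image fun i => (w i : ℝ))).erase 0).card =
          (((Finset.univ.erase i0).image w).erase 0).card := by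
        have h5 : (((Finset.univ.erase i0).image fun i => (w i : ℝ))).erase 0 =
            ((((Finset.univ.erase i0).image w).erase 0)).image (fun a : ℕ => (a : ℝ)) := by
          ext a
          simp only [Finset.mem_erase, Finset.mem_image, Finset.mem_univ, and_true]
          constructor
          · rintro ⟨h6, i, hi, rfl⟩
            exact ⟨w i, ⟨fun h => h6 (by rw [h]; norm_num), i, hi, rfl⟩, rfl⟩
          · rintro ⟨b, ⟨h6, i, hi, rfl⟩, rfl⟩
            exact ⟨by exact_mod_cast h6, i, hi, rfl⟩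
        rw [h5, Finset.card_image_of_injective _ Nat.cast_injective]
      have hc2 : c ^ 2 - (w i0 : ℝ) ^ 2 = S := by
        have h5 : ((∑ i, w i ^ 2 : ℕ) : ℝ) = ((w i0 ^ 2 + S : ℕ) : ℝ) := by rw [hS0]
        push_cast at h5
        rw [hc, h5]
        ring
      have h6 := hformC (fun i => (w i : ℝ)) c (fun i => Nat.cast_nonneg _) hc.symm
        (Or.inl ⟨μ, by exact_mod_cast hμ1, fun i hi => by
            exact_mod_cast hμ i hi, by
            have h7 : (w i0 : ℝ) + 32 * μ ≤ d := by exact_mod_cast hb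
            linarith, by
            rw [hcardeq, hc2]
            exact_mod_cast hcon⟩)
      have h8 : ∑ i, (fun i => (w i : ℝ)) i * (w i : ℝ) = c ^ 2 := by
        rw [hc]
        exact Finset.sum_congr rfl fun i _ => by ring
      rw [h8] at h6
      nlinarith
    have hnb := neg_bound_one hk1 hμ hμ1 hsp (by rw [← hS]; exact hkey)
    rw [← hS] at hnb
    have hy0 := Real.sqrt_nonneg (k : ℝ)
    have hy2 := Real.sq_sqrt (Nat.cast_nonneg (α := ℝ) k)
    have h3 : 0 ≤ (S : ℝ) - 24 * (μ : ℝ) ^ 2 := by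
      have h4 : (24 : ℝ) * (μ : ℝ) ^ 2 ≤ S := by exact_mod_cast hmass
      linarith
    have h4 := pow_le_pow_left₀ (mul_nonneg hy0 h3) hnb 2
    rw [mul_pow, hy2] at h4
    have h5 : (k : ℝ) * ((S : ℝ) - 24 * (μ : ℝ) ^ 2) ^ 2 ≤ 256 * (μ : ℝ) ^ 6 := by
      have e1 : (16 * (μ : ℝ) ^ 3) ^ 2 = 256 * (μ : ℝ) ^ 6 := by ring
      linarith
    exact_mod_cast h5
  · exact quasi (fun x c hx0 hsq h => hformC x c hx0 hsq (Or.inr h))
      h4R ht hw hd

end Pool.Agent.K6.H96
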