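import Mathlib
import Pool.Agent.K6.H96.OneMain

set_option autoImplicit false

/-!
# Quasi-homogeneous negative curves

Let `C` be an irreducible curve of negative self-intersection and of class
`d H - M E 0 - t (E 1 + … + E N)`, `t ≥ 1`, on the blow-up of the plane at very general points. If
`d ≤ 2 M` or `N ≥ 256` then `d < M + 4 t` and `d ≠ M + 2 t`.

Proof: the class `C` is compared with nef classes of self-intersection zero of the same kind with
another ratio of the coefficients (`OneArbitrary`).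
-/

namespace Pool.Agent.Results.MP_d3e5c7_ag.QuasiHomogeneous

open Pool.Agent.TH167.SHDefs

theorem result (n : ℕ) :
    ∃ Z : ℕ → MvPolynomial (Fin n × Fin 2) ℂ, (∀ k, Z k ≠ 0) ∧
      ∀ p : Fin n → Fin 2 → ℂ,
        (∀ k, MvPolynomial.eval (fun ij : Fin n × Fin 2 => p ij.1 ij.2) (Z k) ≠ 0) →
        ∀ (i0 : Fin n) (d : ℕ) (w : Fin n → ℕ) (C : MvPolynomial (Fin 3) ℂ), Curve p C d w →
          inter d w d w < 0 →
          ∀ t : ℕ, 1 ≤ t → (∀ i, i ≠ i0 → w i = 0 ∨ w i = t) →
            (d ≤ 2 * w i0 ∨ 256 ≤ ((Finset.univ.erase i0).filter fun i => w i = t).card) →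
            d < w i0 + 4 * t ∧ d ≠ w i0 + 2 * t := by
  obtain ⟨Z, hZ, h⟩ := Pool.Agent.K6.H96.one_main n
  exact ⟨Z, hZ, fun p hp i0 d w C hC hneg => ((h p hp i0).2 d w C hC hneg).2⟩

end Pool.Agent.Results.MP_d3e5c7_ag.QuasiHomogeneous
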