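import Mathlib
import Pool.Agent.K6.H96.OneMain

set_option autoImplicit false

/-!
# Negative curves: the second largest multiplicity

Let `C` be an irreducible curve of negative self-intersection on the blow-up of the plane at very
general points, of class `d H - ∑ w i E i`, and let `i0` be any index. If `w i ≤ μ` for all `i ≠ i0`
and `w i0 + 32 μ ≤ d` then `- C ^ 2 (∑ w i ^ 2 - 24 μ ^ 2) ^ 2 ≤ 256 μ ^ 6`, where the sum is over
`i ≠ i0`. In particular `d ^ 2 - (w i0) ^ 2 ≤ 16 μ ^ 3 + 24 μ ^ 2`.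

Proof: the class `c H - ∑ w i E i` with `c ^ 2 = ∑ w i ^ 2` is nef if the multiplicities other than
`w i0` take few distinct values (`OneArbitrary`); different multiplicities are far from each other by
the starting result `SeparatedMultiplicities`.
-/

namespace Pool.Agent.Results.MP_d3e5c7_ag.SecondMultiplicity

open Pool.Agent.TH167.SHDefs

theorem result (n : ℕ) :
    ∃ Z : ℕ → MvPolynomial (Fin n × Fin 2) ℂ, (∀ k, Z k ≠ 0) ∧
      ∀ p : Fin n → Fin 2 → ℂ,
        (∀ k, MvPolynomial.eval (fun ij : Fin n × Fin 2 => p ij.1 ij.2) (Z k) ≠ 0) →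
        ∀ (i0 : Fin n) (d : ℕ) (w : Fin n → ℕ) (C : MvPolynomial (Fin 3) ℂ), Curve p C d w →
          inter d w d w < 0 →
          ∀ μ : ℕ, 1 ≤ μ → (∀ i, i ≠ i0 → w i ≤ μ) → w i0 + 32 * μ ≤ d →
            -inter d w d w *
              (∑ i ∈ Finset.univ.erase i0, (w i : ℤ) ^ 2 - 24 * (μ : ℤ) ^ 2) ^ 2 ≤
                256 * (μ : ℤ) ^ 6 := by
  obtain ⟨Z, hZ, h⟩ := Pool.Agent.K6.H96.one_main n
  exact ⟨Z, hZ, fun p hp i0 d w C hC hneg => ((h p hp i0).2 d w C hC hneg).1⟩

end Pool.Agent.Results.MP_d3e5c7_ag.SecondMultiplicity
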