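import Pool.Agent.TH793.NG.Dec
import Pool.Agent.TH366.RC.Lead

/-! Expansion in powers of the equation of the nodal curve for systems with general rows, and the
leading coefficient (after `TH366.RC.Dec`). -/

set_option autoImplicit false

namespace Pool.Agent.K6.H96

open Pool.Agent.TH603.EL Pool.Agent.TH603.EL.Scal2 Pool.Agent.TH793.NG Pool.Agent.TH366.RC

section dec
variable {F : Type} [Field F]

/-- bounds of the coefficients -/
def Wf (φ : ℕ → ℝ) (K c : ℕ) (A : PXY F) : Prop :=
  ∀ j, A.coeff j = 0 ∨ (2 * j + c ≤ K ∧ ((A.coeff j).natDegree : ℝ) ≤ φ (2 * j + c))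

theorem Wf.add {φ : ℕ → ℝ} {K c : ℕ} {A B : PXY F} (hA : Wf φ K c A) (hB : Wf φ K c B) :
    Wf φ K c (A + B) := by
  intro j
  rw [Polynomial.coeff_add]
  rcases hA j with h1 | h1
  · rw [h1, zero_add]; exact hB j
  · rcases hB j with h2 | h2
    · rw [h2, add_zero]; right; exact h1
    · right
      refine ⟨h1.1, ?_⟩
      have h3 := Polynomial.natDegree_add_le (A.coeff j) (B.coeff j)
      have h4 : ((A.coeff j + B.coeff j).natDegree : ℝ) ≤
          max ((A.coeff j).natDegree : ℝ) ((B.coeff j).natDegree : ℝ) := by exact_mod_cast h3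
      exact h4.trans (max_le h1.2 h2.2)

theorem Wf.zero {φ : ℕ → ℝ} {K c : ℕ} : Wf φ K c (0 : PXY F) := fun j => Or.inl (by simp)

theorem Wf.mulX {φ : ℕ → ℝ} {K c : ℕ} {A : PXY F} (hA : Wf φ K (c + 2) A) :
    Wf φ K c (A * Polynomial.X) := by
  intro j
  rcases j with _ | j
  · left; simp
  · rw [Polynomial.coeff_mul_X]
    rcases hA j with h | ⟨h1, h2⟩
    · left; exact h
    · right
      have e : 2 * (j + 1) + c = 2 * j + (c + 2) := by ring
      rw [e]
      exact ⟨h1, h2⟩

theorem Wf.C {φ : ℕ → ℝ} {K c : ℕ} {p : Polynomial (HK F)}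
    (hp : p = 0 ∨ (c ≤ K ∧ (p.natDegree : ℝ) ≤ φ c)) : Wf φ K c (Polynomial.C p) := by
  intro j
  rcases j with _ | j
  · rw [Polynomial.coeff_C_zero]
    rcases hp with h | h
    · left; exact h
    · right; simpa using h
  · left
    rw [Polynomial.coeff_C_succ]

/-- expansions in powers of the equation -/
def Gf (φ : ℕ → ℝ) (K c : ℕ) (p : PXY F) : Prop :=
  ∃ A B : PXY F, Wf φ K c A ∧ Wf φ K (c + 1) B ∧ p = A.comp (hh F) + B.comp (hh F) * Polynomial.X

theorem Gf.zero {φ : ℕ → ℝ} {K c : ℕ} : Gf φ K c (0 : PXY F) :=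
  ⟨0, 0, Wf.zero, Wf.zero, by simp⟩

theorem Gf.add {φ : ℕ → ℝ} {K c : ℕ} {p q : PXY F} (hp : Gf φ K c p) (hq : Gf φ K c q) :
    Gf φ K c (p + q) := by
  obtain ⟨A, B, h1, h2, rfl⟩ := hp
  obtain ⟨A', B', h1', h2', rfl⟩ := hq
  refine ⟨A + A', B + B', h1.add h1', h2.add h2', ?_⟩
  rw [Polynomial.add_comp, Polynomial.add_comp]; ring

theorem Gf.sum {φ : ℕ → ℝ} {K c : ℕ} {κ : Type*} (t : Finset κ) (f : κ → PXY F)
    (h : ∀ k ∈ t, Gf φ K c (f k)) : Gf φ K c (∑ k ∈ t, f k) := by
  classical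
  induction t using Finset.induction_on with
  | empty => simpa using Gf.zero
  | insert k t hk ih =>
    rw [Finset.sum_insert hk]
    exact (h k (Finset.mem_insert_self _ _)).add (ih fun j hj => h j (Finset.mem_insert_of_mem hj))

theorem Gf.mulh {φ : ℕ → ℝ} {K c : ℕ} {p : PXY F} (hp : Gf φ K (c + 2) p) :
    Gf φ K c (p * hh F) := by
  obtain ⟨A, B, h1, h2, rfl⟩ := hp
  refine ⟨A * Polynomial.X, B * Polynomial.X, h1.mulX, ?_, ?_⟩
  · apply Wf.mulX
    have : c + 2 + 1 = c + 1 + 2 := by ring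
    rw [← this]; exact h2
  · rw [Polynomial.mul_comp, Polynomial.mul_comp, Polynomial.X_comp]; ring

theorem Gf.mono_pow {φ : ℕ → ℝ} {K : ℕ} (hφ : ∀ k, k + 1 ≤ K → φ (k + 1) + 3 / 2 ≤ φ k) (k : ℕ) :
    ∀ (c : ℕ) (p : Polynomial (HK F)),
    (p = 0 ∨ (k + c ≤ K ∧ (p.natDegree : ℝ) ≤ φ (k + c))) →
      Gf φ K c (Polynomial.C p * Polynomial.X ^ k) := by
  induction k using Nat.strong_induction_on with
  | _ k ih =>
    intro c p hp
    rcases k with _ | k
    · refine ⟨Polynomial.C p, 0, Wf.C ?_, Wf.zero, ?_⟩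
      · rcases hp with h | h
        · left; exact h
        · right; simpa using h
      · simp
    · rcases k with _ | k
      · refine ⟨0, Polynomial.C p, Wf.zero, Wf.C ?_, ?_⟩
        · rcases hp with h | h
          · left; exact h
          · right
            have e : 0 + 1 + c = c + 1 := by ring
            rw [e] at h
            exact h
        · simp
      · have e1 : Polynomial.C p * Polynomial.X ^ (k + 1 + 1) =
            (Polynomial.C p * Polynomial.X ^ k) * hh F +
              Polynomial.C (p * rhs F) * Polynomial.X ^ k := by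
          unfold hh
          rw [Polynomial.C_mul]
          ring
        rw [e1]
        refine (Gf.mulh (ih k (by omega) _ p ?_)).add (ih k (by omega) _ _ ?_)
        · rcases hp with h | h
          · left; exact h
          · right
            have e : k + 1 + 1 + c = k + (c + 2) := by ring
            rw [e] at h
            exact h
        · rcases hp with h | ⟨h1, h2⟩
          · left; rw [h, zero_mul]
          · right
            have h3 : ((p * rhs F).natDegree : ℝ) ≤ p.natDegree + 3 := by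
              have := (Polynomial.natDegree_mul_le (p := p) (q := rhs F)).trans
                (Nat.add_le_add_left (rhs_deg F) _)
              exact_mod_cast this
            have h4 := hφ (k + c) (by omega)
            have h5 := hφ (k + c + 1) (by omega)
            have e : k + 1 + 1 + c = k + c + 1 + 1 := by ring
            rw [e] at h2
            exact ⟨by omega, by linarith⟩

end dec

section lead
variable {F : Type} [Field F] [CharZero F] {a b s : ℝ}

/-- the leading coefficient of a nonzero polynomial with bounded rows on the tube -/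
theorem nod_leadF (ha : 0 < a) (hb : 0 < b) (hs : 0 < s) (hab : a + b = 1) {φ : ℕ → ℝ} {K : ℕ}
    (hφ : ∀ k, k + 1 ≤ K → φ (k + 1) + 3 / 2 ≤ φ k) (hse : ∀ k, k ≤ K → 2 * φ k < s)
    {p : PXY F} (hp : p ≠ 0) (hg : Gf φ K 0 p) :
    ∃ n : ℝ, (∃ i j, cf (EV (xx F a b s) (yy F a b s) p) n i j ≠ 0) ∧
      ∀ i j, cf (EV (xx F a b s) (yy F a b s) p) n i j ≠ 0 →
        ∃ l : ℕ, j = (l : ℤ) ∧ 2 * l ≤ K ∧ -(2 * a * φ (2 * l)) ≤ (i : ℝ) ∧
          (i : ℝ) ≤ 2 * b * φ (2 * l) := by
  classical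
  obtain ⟨A, B, hA, hB, rfl⟩ := hg
  obtain ⟨N, hNA, hNB⟩ : ∃ N, A.natDegree < N ∧ B.natDegree < N :=
    ⟨max A.natDegree B.natDegree + 1, by omega, by omega⟩
  obtain ⟨G, hG⟩ : ∃ G : ℕ → HR F, ∀ j, G j = evA (xx F a b s) (A.coeff j) +
      evA (xx F a b s) (B.coeff j) * yy F a b s := ⟨_, fun _ => rfl⟩
  have hpow : ∀ j : ℕ, tz F (1 + s) 0 1 ^ j = tz F (j * (1 + s)) 0 j := by
    intro j
    induction j with
    | zero =>
      simp only [pow_zero, Nat.cast_zero, zero_mul]
      rfl
    | succ j ih =>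
      rw [pow_succ, ih, tz_mul]
      congr 1 <;> (push_cast; ring)
  have hval : EV (xx F a b s) (yy F a b s) (A.comp (hh F) + B.comp (hh F) * Polynomial.X) =
      ∑ j ∈ Finset.range N, tz F (j * (1 + s)) 0 j * (G j * (-4 * (1 + xx F a b s)) ^ j) := by
    rw [map_add, map_mul, EV_X, EV_comp _ _ A N hNA, EV_comp _ _ B N hNB, Finset.sum_mul,
      ← Finset.sum_add_distrib]
    refine Finset.sum_congr rfl fun j _ => ?_
    rw [EV_hh ha hb hs hab, mul_pow, hpow, hG j]
    ring
  rw [hval]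
  -- the indices with nonzero sections
  obtain ⟨J, hJ⟩ : ∃ J : Finset ℕ, J = (Finset.range N).filter fun j => A.coeff j ≠ 0 ∨ B.coeff j ≠ 0 :=
    ⟨_, rfl⟩
  have hJm : ∀ j ∈ J, 2 * j ≤ K ∧ 0 ≤ φ (2 * j) := by
    intro j hj
    rw [hJ, Finset.mem_filter] at hj
    rcases hj.2 with h | h
    · rcases hA j with h1 | h1
      · exact absurd h1 h
      · have : (0 : ℝ) ≤ ((A.coeff j).natDegree : ℝ) := Nat.cast_nonneg _
        rw [add_zero] at h1
        exact ⟨h1.1, this.trans h1.2⟩
    · rcases hB j with h1 | h1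
      · exact absurd h1 h
      · have : (0 : ℝ) ≤ ((B.coeff j).natDegree : ℝ) := Nat.cast_nonneg _
        rw [zero_add] at h1
        have h2 := hφ (2 * j) h1.1
        exact ⟨by omega, by linarith [h1.2]⟩
  have hlead : ∀ j ∈ J, ∃ n : ℝ, Low (G j) n ∧ (∃ i j', cf (G j) n i j' ≠ 0) ∧
      ∀ i j', cf (G j) n i j' ≠ 0 → j' = 0 ∧ -(2 * a * φ (2 * j)) ≤ (i : ℝ) ∧
        (i : ℝ) ≤ 2 * b * φ (2 * j) := by
    intro j hj
    obtain ⟨hmK, hm⟩ := hJm j hj
    have hsj := hse _ hmK
    obtain ⟨D, hD⟩ : ∃ D : ℕ, D = ⌊2 * φ (2 * j)⌋₊ := ⟨_, rfl⟩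
    have hD1 : (D : ℝ) ≤ 2 * φ (2 * j) := by
      rw [hD]; exact Nat.floor_le (by linarith)
    have hD2 : ∀ k : ℕ, (k : ℝ) ≤ 2 * φ (2 * j) → k ≤ D := by
      intro k hk
      rw [hD]; exact Nat.le_floor hk
    rw [hJ, Finset.mem_filter] at hj
    obtain ⟨n, h1, h2, h4⟩ := g_lead (F := F) ha hb hs hab (D := D) (A.coeff j) (B.coeff j) hj.2 (by
        rcases hA j with h | h
        · rw [h]; simp
        · apply hD2
          rw [add_zero] at h
          push_cast
          linarith [h.2]) (by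
        rcases hB j with h | h
        · left; exact h
        · right
          apply hD2
          rw [zero_add] at h
          have h2 := hφ (2 * j) h.1
          push_cast
          linarith [h.2]) (by linarith)
    refine ⟨n, by rw [hG j]; exact h1, by rw [hG j]; exact h2, ?_⟩
    intro i j' hij
    rw [hG j] at hij
    obtain ⟨h5, h6, h7⟩ := h4 i j' hij
    have h8 : (D : ℝ) * a ≤ 2 * φ (2 * j) * a := mul_le_mul_of_nonneg_right hD1 ha.le
    have h9 : (D : ℝ) * b ≤ 2 * φ (2 * j) * b := mul_le_mul_of_nonneg_right hD1 hb.le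
    exact ⟨h5, by linarith, by linarith⟩
  choose! nu hnu1 hnu2 hnu3 using hlead
  have hJne : J.Nonempty := by
    by_contra hcon
    rw [Finset.not_nonempty_iff_eq_empty] at hcon
    apply hp
    have hz : ∀ j, A.coeff j = 0 ∧ B.coeff j = 0 := by
      intro j
      by_cases hj : j < N
      · have : j ∉ J := by rw [hcon]; simp
        rw [hJ, Finset.mem_filter] at this
        push Not at this
        exact this (Finset.mem_range.2 hj)
      · exact ⟨Polynomial.coeff_eq_zero_of_natDegree_lt (by omega),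
          Polynomial.coeff_eq_zero_of_natDegree_lt (by omega)⟩
    have hA0 : A = 0 := by ext1 j; simpa using (hz j).1
    have hB0 : B = 0 := by ext1 j; simpa using (hz j).2
    rw [hA0, hB0]; simp
  obtain ⟨j0, hj0, hmin⟩ := Finset.exists_min_image J (fun j => nu j + j * (1 + s)) hJne
  obtain ⟨n0, hn0⟩ : ∃ n0, n0 = nu j0 + j0 * (1 + s) := ⟨_, rfl⟩
  -- the terms
  have hterm : ∀ j ∈ Finset.range N, ∀ i j' : ℤ,
      cf (tz F (j * (1 + s)) 0 j * (G j * (-4 * (1 + xx F a b s)) ^ j)) n0 i j' ≠ 0 →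
      j ∈ J ∧ nu j + j * (1 + s) = n0 ∧ j' = j ∧ cf (G j) (nu j) i 0 ≠ 0 := by
    intro j hj i j' h
    rw [cf_tz_mul] at h
    have hjJ : j ∈ J := by
      by_contra hcon
      rw [hJ, Finset.mem_filter] at hcon
      push Not at hcon
      obtain ⟨hA0, hB0⟩ := hcon hj
      apply h
      rw [hG j, hA0, hB0]
      simp [evA, cf_zero]
    obtain ⟨hU1, hU2⟩ := coeff_U (F := F) ha hb hs j
    have hlow := (hnu1 j hjJ).mul hU1
    rw [add_zero] at hlow
    have hle := hmin j hjJ
    have heq : nu j + j * (1 + s) = n0 := by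
      apply le_antisymm
      · by_contra hlt
        apply h
        unfold cf
        rw [hlow _ (by linarith)]
        simp
      · rw [hn0]; exact hle
    have h1 : n0 - j * (1 + s) = nu j := by linarith
    rw [h1] at h
    have h2 := (hnu1 j hjJ).coeff_mul hU1
    rw [add_zero, hU2] at h2
    have h3 : cf (G j * (-4 * (1 + xx F a b s)) ^ j) (nu j) (i - 0) (j' - j) =
        (-4) ^ j * cf (G j) (nu j) (i - 0) (j' - j) := by
      unfold cf
      rw [h2]
      have : ((-4 : Lau F) ^ j) = algebraMap F (Lau F) ((-4) ^ j) := by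
        rw [map_pow, map_neg, map_ofNat]
      rw [this, mul_comm, ← Algebra.smul_def, AddMonoidAlgebra.coeff_smul, Finsupp.smul_apply,
        smul_eq_mul]
    rw [h3] at h
    have h4 := right_ne_zero_of_mul h
    have h5 := hnu3 j hjJ _ _ h4
    have h6 : j' = j := by have := h5.1; omega
    refine ⟨hjJ, heq, h6, ?_⟩
    rw [h6, sub_self, sub_zero] at h4
    exact h4
  refine ⟨n0, ?_, ?_⟩
  · obtain ⟨i0, j1, h1⟩ := hnu2 j0 hj0
    have h2 := (hnu3 j0 hj0 _ _ h1).1
    rw [h2] at h1
    refine ⟨i0, j0, ?_⟩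
    rw [cf_sum, Finset.sum_eq_single j0]
    · rw [cf_tz_mul]
      obtain ⟨hU1, hU2⟩ := coeff_U (F := F) ha hb hs j0
      have h3 : n0 - j0 * (1 + s) = nu j0 := by linarith
      rw [h3, sub_self, sub_zero]
      have h4 := (hnu1 j0 hj0).coeff_mul hU1
      rw [add_zero, hU2] at h4
      unfold cf
      rw [h4]
      have : ((-4 : Lau F) ^ j0) = algebraMap F (Lau F) ((-4) ^ j0) := by
        rw [map_pow, map_neg, map_ofNat]
      rw [this, mul_comm, ← Algebra.smul_def, AddMonoidAlgebra.coeff_smul, Finsupp.smul_apply,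
        smul_eq_mul]
      refine mul_ne_zero (pow_ne_zero _ ?_) h1
      norm_num
    · intro j hj hne
      by_contra hcon
      have := (hterm j hj _ _ hcon).2.2.1
      apply hne
      exact_mod_cast this.symm
    · intro h
      exfalso
      apply h
      rw [hJ] at hj0
      exact (Finset.mem_filter.1 hj0).1
  · intro i j' h
    rw [cf_sum] at h
    obtain ⟨j, hj, hj'⟩ := Finset.exists_ne_zero_of_sum_ne_zero h
    obtain ⟨h1, h2, h3, h4⟩ := hterm j hj _ _ hj'
    obtain ⟨_, h5, h6⟩ := hnu3 j h1 _ _ h4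
    exact ⟨j, h3, (hJm j h1).1, h5, h6⟩

end lead

end Pool.Agent.K6.H96
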