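import Pool.Agent.TH793.NG.Key
import Pool.Agent.K6.H96.NDec

/-! The degeneration of a system with general rows, the lengths of which decrease by at least
`3 / 2`, to a system with rows of twice the length on half of the height (after `TH366.RC.Key`). -/

set_option autoImplicit false

namespace Pool.Agent.K6.H96

open Pool.Agent.TH603.EL Pool.Agent.TH603.EL.Scal2 Pool.Agent.TH176.Nag
open Pool.Agent.TH793.NG (PXY pf pf_ne UU UU_zero UU_one UU_two ev_hom xx yy evp_xx evp_yy EV hh)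

theorem pf_Gf {F : Type} [Field F] {φ : ℕ → ℝ} {K : ℕ}
    (hφ : ∀ k, k + 1 ≤ K → φ (k + 1) + 3 / 2 ≤ φ k) {f : (ℤ × ℤ) →₀ HK F}
    (hf : ∀ m ∈ f.support, 0 ≤ m.1 ∧ 0 ≤ m.2 ∧ m.2 ≤ K ∧ (m.1 : ℝ) ≤ φ m.2.toNat) :
    Gf φ K 0 (pf f) := by
  unfold pf
  apply Gf.sum
  intro m hm
  obtain ⟨h1, h2, h3, h4⟩ := hf m hm
  apply Gf.mono_pow hφ
  right
  have h5 := Polynomial.natDegree_C_mul_X_pow_le (f m) m.1.toNat
  have h6 : (m.1.toNat : ℤ) = m.1 := Int.toNat_of_nonneg h1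
  have h6' : ((m.1.toNat : ℕ) : ℝ) = (m.1 : ℝ) := by exact_mod_cast congrArg (Int.cast : ℤ → ℝ) h6
  have h7 : ((Polynomial.C (f m) * Polynomial.X ^ m.1.toNat : Polynomial (HK F)).natDegree : ℝ) ≤
      m.1 := by
    rw [← h6']; exact_mod_cast h5
  rw [add_zero]
  exact ⟨by omega, h7.trans h4⟩

theorem phi_le {φ : ℕ → ℝ} {K : ℕ} (hφ : ∀ k, k + 1 ≤ K → φ (k + 1) + 3 / 2 ≤ φ k) :
    ∀ k, k ≤ K → φ k ≤ φ 0 := by
  intro k
  induction k with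
  | zero => intro _; exact le_rfl
  | succ k ih =>
    intro hk
    have h1 := hφ k hk
    have h2 := ih (by omega)
    linarith

/-- emptiness for the rows `[-2 a φ (2 j), 2 b φ (2 j)]`, `2 j ≤ K`, gives emptiness for the rows
`[0, φ k]`, `k ≤ K` -/
theorem Emp_nodalF {ι : Type} {w : ι → ℕ} {φ : ℕ → ℝ} {K : ℕ}
    (hφ : ∀ k, k + 1 ≤ K → φ (k + 1) + 3 / 2 ≤ φ k) {a b : ℝ}
    (ha : 0 < a) (hb : 0 < b) (hab : a + b = 1) (hne : a ≠ b)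
    (h : Emp w {m : ℤ × ℤ | ∃ l : ℕ, m.2 = (l : ℤ) ∧ 2 * l ≤ K ∧ -(2 * a * φ (2 * l)) ≤ (m.1 : ℝ) ∧
      (m.1 : ℝ) ≤ 2 * b * φ (2 * l)}) :
    Emp w {m : ℤ × ℤ | 0 ≤ m.1 ∧ 0 ≤ m.2 ∧ m.2 ≤ K ∧ (m.1 : ℝ) ≤ φ m.2.toNat} := by
  obtain ⟨F, _, _, x, y, hx, hy, hE⟩ := h
  obtain ⟨s, hs⟩ : ∃ s : ℝ, s = 2 * max (φ 0) 0 + 1 := ⟨_, rfl⟩
  have hmax := le_max_right (φ 0) 0
  have hmax' := le_max_left (φ 0) 0
  have hs0 : 0 < s := by rw [hs]; linarith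
  have hse : ∀ k, k ≤ K → 2 * φ k < s := fun k hk => by
    have := phi_le hφ k hk
    rw [hs]; linarith
  have hchar : CharZero (HK F) :=
    charZero_of_injective_ringHom (f := (HahnSeries.C : F →+* HK F)) HahnSeries.C_injective
  have hU : ∀ i l, evp (hx i) (hy i) (UU (xx F a b s) (yy F a b s) l) ≠ 0 := by
    intro i l
    unfold UU
    split_ifs
    · rw [map_one]; exact one_ne_zero
    · exact evp_xx (hx i) (hy i) hs0 hne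
    · exact evp_yy (hx i) (hy i) ha hb hs0 hne
  refine ⟨HK F, inferInstance, hchar,
    fun i => evp (hx i) (hy i) (UU (xx F a b s) (yy F a b s) 1) /
      evp (hx i) (hy i) (UU (xx F a b s) (yy F a b s) 0),
    fun i => evp (hx i) (hy i) (UU (xx F a b s) (yy F a b s) 2) /
      evp (hx i) (hy i) (UU (xx F a b s) (yy F a b s) 0),
    fun i => div_ne_zero (hU i 1) (hU i 0), fun i => div_ne_zero (hU i 2) (hU i 0), ?_⟩
  intro f hf hLM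
  by_contra hne0
  have hf0 : ∀ m ∈ f.support, 0 ≤ m.1 ∧ 0 ≤ m.2 ∧ m.2 ≤ K ∧ (m.1 : ℝ) ≤ φ m.2.toNat :=
    fun m hm => hf hm
  obtain ⟨d, hd⟩ : ∃ d : ℕ, d = ⌈max (φ 0) 0⌉₊ + K := ⟨_, rfl⟩
  have hf1 : ∀ m ∈ f.support, 0 ≤ m.1 ∧ 0 ≤ m.2 ∧ m.1 + m.2 ≤ (d : ℤ) := by
    intro m hm
    obtain ⟨h1, h2, h3, h4⟩ := hf0 m hm
    refine ⟨h1, h2, ?_⟩
    have h5 := phi_le hφ m.2.toNat (by omega)
    have h6 := Nat.le_ceil (max (φ 0) 0)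
    have h7 : (m.1 : ℝ) ≤ ((⌈max (φ 0) 0⌉₊ : ℕ) : ℝ) := by linarith
    have h8 : m.1 ≤ ((⌈max (φ 0) 0⌉₊ : ℕ) : ℤ) := by exact_mod_cast h7
    rw [hd]
    push_cast at h8 ⊢
    omega
  obtain ⟨n, ⟨i0, j0, ha0⟩, hb0⟩ := nod_leadF (F := F) ha hb hs0 hab hφ hse
    (pf_ne (fun m hm => ⟨(hf0 m hm).1, (hf0 m hm).2.1⟩) hne0) (pf_Gf hφ hf0)
  rw [← ev_hom _ _ d f] at ha0
  have h2 : ((ev (UU (xx F a b s) (yy F a b s)) (hom d f)).coeff n).coeff = 0 := by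
    apply hE
    · intro m hm
      have hm' : cf (EV (xx F a b s) (yy F a b s) (pf f)) n m.1 m.2 ≠ 0 := by
        rw [← ev_hom _ _ d f]
        exact Finsupp.mem_support_iff.1 hm
      exact hb0 m.1 m.2 hm'
    · intro i
      exact LM_transfer (hx i) (hy i) (hU i) hf1 (hLM i) n
  apply ha0
  unfold cf
  rw [h2]
  rfl

end Pool.Agent.K6.H96
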