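import Pool.Agent.K6.H96.NKey
import Pool.Agent.TH146.MN.Shapes

/-! Trapezoids and triangles. -/

set_option autoImplicit false

namespace Pool.Agent.K6.H96

open Pool.Agent.TH176.Nag Pool.Agent.TH146.MN

variable {ι : Type} {w : ι → ℕ}

/-- the right trapezoid with the base `e`, the height `H` and the slope `δ` degenerates to the
triangle with the base `4 e - 2 δ H` and the height `H / 2` -/
theorem Emp_trap {E δ e H : ℝ} (hδ : 3 ≤ 2 * δ) (hH : 0 < H) (heH : δ * H ≤ e)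
    (hE : E ^ 2 = (4 * e - 2 * δ * H) * (H / 2)) (hE0 : 0 < E)
    (h : TS w E 0 ((4 * e - 2 * δ * H) / (H / 2))) :
    Emp w {m : ℤ × ℤ | 0 ≤ m.1 ∧ 0 ≤ m.2 ∧ (m.2 : ℝ) ≤ H ∧ (m.1 : ℝ) + δ * m.2 ≤ e} := by
  have hδ0 : 0 < δ := by linarith
  have hδH : 0 < δ * H := by positivity
  obtain ⟨q, hq⟩ : ∃ q : ℝ, q = 4 * e / H := ⟨_, rfl⟩
  have hqH : q * H = 4 * e := by rw [hq]; field_simp
  have hq4 : 4 * δ ≤ q := by
    rw [hq, le_div_iff₀ hH]; linarith
  obtain ⟨y, hy1, hy2⟩ : ∃ y : ℤ, 0 < q - y ∧ q - y ≤ 1 := by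
    refine ⟨⌈q⌉ - 1, ?_, ?_⟩
    · push_cast
      have := Int.ceil_lt_add_one q
      linarith
    · push_cast
      have := Int.le_ceil q
      linarith
  obtain ⟨a, ha⟩ : ∃ a : ℝ, a = (q - y) / (4 * δ) := ⟨_, rfl⟩
  have ha4 : 4 * δ * a = q - y := by rw [ha]; field_simp
  have ha0 : 0 < a := by rw [ha]; positivity
  have ha1 : a < 1 / 2 := by
    rw [ha, div_lt_iff₀ (by positivity)]; linarith
  -- the triangle
  obtain ⟨B, hB⟩ : ∃ B : ℝ, B = 4 * e - 2 * δ * H := ⟨_, rfl⟩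
  have hB0 : 0 < B := by rw [hB]; linarith
  rw [← hB] at hE h
  have hsum : q + (q - 4 * δ) = B / (H / 2) := by
    rw [hB, hq]; field_simp; ring
  have hσ : 0 < q + (q - 4 * δ) := by rw [hsum]; positivity
  have h1 : TS w E q (q - 4 * δ) := by
    apply TS.toRT hσ
    rw [hsum]
    exact h
  have hEB : E * √(q + (q - 4 * δ)) = B := by
    rw [hsum]
    have e1 : E = √(B * (H / 2)) := by
      rw [← hE]; exact (Real.sqrt_sq hE0.le).symm
    rw [e1, ← Real.sqrt_mul (by positivity)]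
    have e2 : B * (H / 2) * (B / (H / 2)) = B ^ 2 := by field_simp
    rw [e2]
    exact Real.sqrt_sq hB0.le
  have h2 := h1 (-(2 * a * e))
  rw [hEB] at h2
  -- flattening of the trapezoid
  obtain ⟨K, hK⟩ : ∃ K : ℕ, K = ⌊H⌋₊ := ⟨_, rfl⟩
  have hKH : (K : ℝ) ≤ H := by rw [hK]; exact Nat.floor_le hH.le
  have h3 : Emp w {m : ℤ × ℤ | ∃ l : ℕ, m.2 = (l : ℤ) ∧ 2 * l ≤ K ∧
      -(2 * a * (e - δ * ((2 * l : ℕ) : ℝ))) ≤ (m.1 : ℝ) ∧
      (m.1 : ℝ) ≤ 2 * (1 - a) * (e - δ * ((2 * l : ℕ) : ℝ))} := by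
    refine Emp_flat 1 y 1 0 (by norm_num) ?_ h2
    rintro ⟨p1, p2⟩ T k ⟨l, hl, hlK, hl1, hl2⟩ ⟨l', hl', hlK', hl1', hl2'⟩ hk
    simp only at hl hl1 hl2 hl' hl1' hl2'
    have c1 : (l' : ℝ) = l + T := by
      have : ((l' : ℕ) : ℤ) = l + T := by rw [← hl', hl]; ring
      exact_mod_cast this
    have c2 : (2 * l' : ℝ) ≤ H := by
      have : ((2 * l' : ℕ) : ℝ) ≤ K := by exact_mod_cast hlK'
      push_cast at this
      linarith
    have c3 : (k : ℝ) ≤ T := by exact_mod_cast hk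
    have c4 : (0 : ℝ) ≤ l := Nat.cast_nonneg l
    push_cast at hl1 hl2 hl1' hl2'
    refine ⟨by simp, ?_, ?_⟩
    · simp only
      have e1 : ((1 * p1 + y * p2 : ℤ) : ℝ) = p1 + y * l := by
        rw [hl]; push_cast; ring
      rw [e1, Int.cast_natCast]
      have e2 : (p1 : ℝ) - y * T ≥ -(2 * a * e) + 4 * δ * a * l' := by linarith
      rw [ha4] at e2
      rw [c1] at e2
      have e3 : 0 ≤ q * ((l : ℝ) + T - k) := mul_nonneg (by linarith) (by linarith)
      nlinarith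
    · simp only
      have e1 : ((1 * p1 + y * p2 : ℤ) : ℝ) = p1 + y * l := by
        rw [hl]; push_cast; ring
      rw [e1, Int.cast_natCast]
      have e2 : (p1 : ℝ) + y * l ≤ 2 * (1 - a) * e + (q - 4 * δ) * l := by
        have : 4 * δ * (1 - a) = 4 * δ - (q - y) := by linarith
        nlinarith
      have e3 : (q - 4 * δ) * l ≤ (q - 4 * δ) * (H / 2 - k) :=
        mul_le_mul_of_nonneg_left (by linarith) (by linarith)
      have e4 : -(2 * a * e) + B - (q - 4 * δ) * k =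
          2 * (1 - a) * e + (q - 4 * δ) * (H / 2 - k) := by
        rw [hB]
        have : q * (H / 2) = 2 * e := by linarith
        linear_combination -this
      linarith
  have h4 := Emp_nodalF (w := w) (φ := fun k : ℕ => e - δ * (k : ℝ)) (K := K) (a := a)
    (b := 1 - a) (fun k _ => by push_cast; linarith) ha0 (by linarith) (by ring)
    (by intro h0; linarith) h3
  refine h4.mono ?_
  rintro ⟨m1, m2⟩ ⟨k1, k2, k3, k4⟩
  simp only at k1 k2 k3 k4
  refine ⟨k1, k2, ?_, ?_⟩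
  · simp only
    rw [hK]
    have h5 : m2.toNat ≤ ⌊H⌋₊ := by
      apply Nat.le_floor
      have : ((m2.toNat : ℕ) : ℤ) = m2 := Int.toNat_of_nonneg k2
      have h6 : ((m2.toNat : ℕ) : ℝ) = (m2 : ℝ) := by exact_mod_cast congrArg (Int.cast : ℤ → ℝ) this
      rw [h6]; exact k3
    omega
  · simp only
    have : ((m2.toNat : ℕ) : ℤ) = m2 := Int.toNat_of_nonneg k2
    have h6 : ((m2.toNat : ℕ) : ℝ) = (m2 : ℝ) := by exact_mod_cast congrArg (Int.cast : ℤ → ℝ) this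
    rw [h6]
    linarith

end Pool.Agent.K6.H96
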